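import Pool.Agent.V11107.GraphMatchbox

/-!
# The combs at each finite level
-/

namespace Pool.Agent.V11107.GraphMatchbox

open Topology Set

/-- `f k n = true` if and only if the binary expansion of `n` has fewer than `k` digits `1`
(in the recursion the leading digit `1` of `n` is removed). -/
def f : ℕ → ℕ → Bool
  | 0, _ => false
  | k + 1, n => if n = 0 then true else f k (n - 2 ^ Nat.log 2 n)

lemma f_zero (n : ℕ) : f 0 n = false := rfl

lemma f_succ_zero (k : ℕ) : f (k + 1) 0 = true := rfl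

lemma f_succ (k : ℕ) {m r : ℕ} (hr : r < 2 ^ m) : f (k + 1) (2 ^ m + r) = f k r := by
  have h1 : 0 < 2 ^ m := Nat.two_pow_pos m
  have h2 : Nat.log 2 (2 ^ m + r) = m := by
    apply Nat.log_eq_of_pow_le_of_lt_pow (Nat.le_add_right _ _)
    rw [pow_succ]
    omega
  rw [f, if_neg (by omega), h2, Nat.add_sub_cancel_left]

lemma f_near : ∀ (k s m t : ℕ), 1 ≤ t → t ≤ 2 ^ s → s + k ≤ m → f k (2 ^ m - t) = false
  | 0, _, _, _, _, _, _ => rfl
  | k + 1, s, m, t, h1, h2, h3 => by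
    obtain ⟨m', rfl⟩ : ∃ m', m = m' + 1 := ⟨m - 1, by omega⟩
    have h4 : t ≤ 2 ^ m' := h2.trans (Nat.pow_le_pow_right (by norm_num) (by omega))
    have h5 : 2 ^ (m' + 1) - t = 2 ^ m' + (2 ^ m' - t) := by
      rw [pow_succ]
      omega
    rw [h5, f_succ k (by omega)]
    exact f_near k s m' t h1 h2 (by omega)

lemma f_pow_sub_one : ∀ j k : ℕ, f j (2 ^ k - 1) = decide (k < j)
  | 0, k => by rw [f]; simp
  | j + 1, 0 => by simp [f]
  | j + 1, k + 1 => by
    have h1 : 0 < 2 ^ k := Nat.two_pow_pos k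
    have h2 : 2 ^ (k + 1) - 1 = 2 ^ k + (2 ^ k - 1) := by
      rw [pow_succ]
      omega
    rw [h2, f_succ j (by omega), f_pow_sub_one j k]
    simp

/-- The sequence `x^{(k)}`: the indicator function of `{n ≥ 0 : n has fewer than k digits 1}`. -/
def xs (k : ℕ) (n : ℤ) : Bool := decide (0 ≤ n) && f k n.toNat

lemma xs_neg (k : ℕ) {n : ℤ} (h : n < 0) : xs k n = false := by
  unfold xs
  rw [decide_eq_false (not_le.2 h), Bool.false_and]

lemma xs_nat (k n : ℕ) : xs k (n : ℤ) = f k n := by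
  unfold xs
  rw [decide_eq_true (Int.natCast_nonneg n), Bool.true_and, Int.toNat_natCast]

lemma xs_zero (n : ℤ) : xs 0 n = false := by
  unfold xs
  rw [f_zero, Bool.and_false]

/-- Just before a power of two. -/
lemma xs_near {k s m : ℕ} {t : ℤ} (h1 : t < 0) (h2 : -t ≤ 2 ^ s) (h3 : s + k ≤ m) :
    xs k (2 ^ m + t) = false := by
  have h4 : ((-t).toNat : ℤ) = -t := Int.toNat_of_nonneg (by omega)
  have h5 : (-t).toNat ≤ 2 ^ s := by
    have : ((-t).toNat : ℤ) ≤ ((2 ^ s : ℕ) : ℤ) := by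
      rw [h4]; push_cast; exact h2
    exact_mod_cast this
  have h6 : 2 ^ s ≤ 2 ^ m := Nat.pow_le_pow_right (by norm_num) (by omega)
  have h7 : ((2 ^ m - (-t).toNat : ℕ) : ℤ) = 2 ^ m + t := by
    rw [Nat.cast_sub (h5.trans h6), h4]
    push_cast
    ring
  rw [← h7, xs_nat]
  exact f_near k s m _ (by omega) h5 h3

/-- In a dyadic block. -/
lemma xs_block (k : ℕ) {m : ℕ} {r : ℤ} (h0 : 0 ≤ r) (h1 : r < 2 ^ m) :
    xs (k + 1) (2 ^ m + r) = xs k r := by
  obtain ⟨r', rfl⟩ := Int.eq_ofNat_of_zero_le h0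
  have h2 : r' < 2 ^ m := by exact_mod_cast h1
  have h3 : ((2 : ℤ) ^ m + (r' : ℤ)) = ((2 ^ m + r' : ℕ) : ℤ) := by push_cast; ring
  rw [h3, xs_nat]
  show f (k + 1) (2 ^ m + r') = xs k (r' : ℤ)
  rw [xs_nat, f_succ k h2]

/-- All windows of `x^{(k+1)}` far from the origin are windows of `x^{(k)}`. -/
lemma far_windows (k R : ℕ) : ∃ B : ℕ, ∀ n : ℤ, (B : ℤ) ≤ |n| →
    ∃ j : ℤ, ∀ t : ℤ, |t| ≤ R → xs (k + 1) (n + t) = xs k (j + t) := by
  set s := 2 * R + 2 with hs
  have hs2 : 2 * R + 2 < 2 ^ s := Nat.lt_two_pow_self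
  have hs2' : (2 * R + 2 : ℤ) < 2 ^ s := by exact_mod_cast hs2
  refine ⟨2 ^ (s + k + 2) + R, fun n hn => ?_⟩
  rcases le_or_gt 0 n with hn0 | hn0
  · rw [abs_of_nonneg hn0] at hn
    obtain ⟨n', rfl⟩ := Int.eq_ofNat_of_zero_le hn0
    have hn' : 2 ^ (s + k + 2) + R ≤ n' := by exact_mod_cast hn
    have hn0' : n' ≠ 0 := by
      have : 0 < 2 ^ (s + k + 2) := Nat.two_pow_pos _
      omega
    set m := Nat.log 2 n' with hm
    have hm1 : 2 ^ m ≤ n' := Nat.pow_log_le_self 2 hn0'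
    have hm2 : n' < 2 ^ (m + 1) := Nat.lt_pow_succ_log_self (by norm_num) n'
    have hm3 : s + k + 2 ≤ m := Nat.le_log_of_pow_le (by norm_num) (by omega)
    have hsm : (2 : ℤ) ^ s ≤ 2 ^ (m - 1) := pow_le_pow_right₀ (by norm_num) (by omega)
    have e1 : (2 : ℤ) ^ m = 2 * 2 ^ (m - 1) := by
      rw [← pow_succ']
      congr 1
      omega
    have e2 : (2 : ℤ) ^ (m + 1) = 2 * 2 ^ m := by rw [pow_succ']
    have hm1' : (2 : ℤ) ^ m ≤ n' := by exact_mod_cast hm1
    have hm2' : (n' : ℤ) < 2 ^ (m + 1) := by exact_mod_cast hm2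
    by_cases hc : (n' : ℤ) + R < 2 ^ (m + 1)
    · refine ⟨n' - 2 ^ m, fun t ht => ?_⟩
      rw [abs_le] at ht
      rcases lt_or_ge ((n' : ℤ) - 2 ^ m + t) 0 with h1 | h1
      · rw [xs_neg k h1]
        have h2 : (n' : ℤ) + t = 2 ^ m + (n' - 2 ^ m + t) := by ring
        show xs (k + 1) ((n' : ℤ) + t) = false
        rw [h2]
        exact xs_near (s := s) h1 (by omega) (by omega)
      · have h2 : (n' : ℤ) + t = 2 ^ m + (n' - 2 ^ m + t) := by ring
        show xs (k + 1) ((n' : ℤ) + t) = _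
        rw [h2, xs_block k h1 (by omega)]
    · refine ⟨n' - 2 ^ (m + 1), fun t ht => ?_⟩
      rw [abs_le] at ht
      rcases lt_or_ge ((n' : ℤ) - 2 ^ (m + 1) + t) 0 with h1 | h1
      · rw [xs_neg k h1]
        have h2 : (n' : ℤ) + t = 2 ^ (m + 1) + (n' - 2 ^ (m + 1) + t) := by ring
        show xs (k + 1) ((n' : ℤ) + t) = false
        rw [h2]
        exact xs_near (s := s) h1 (by omega) (by omega)
      · have h2 : (n' : ℤ) + t = 2 ^ (m + 1) + (n' - 2 ^ (m + 1) + t) := by ring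
        show xs (k + 1) ((n' : ℤ) + t) = _
        rw [h2, xs_block k h1 (by omega)]
  · rw [abs_of_neg hn0] at hn
    refine ⟨-R - 1, fun t ht => ?_⟩
    rw [abs_le] at ht
    have h0 : (0 : ℤ) < 2 ^ (s + k + 2) := by positivity
    push_cast at hn
    rw [xs_neg _ (by omega), xs_neg _ (by omega)]

lemma mem_oc_of_far {x x' y : ℤ → Bool} (H : ∀ R : ℕ, ∃ B : ℕ, ∀ n : ℤ, (B : ℤ) ≤ |n| →
    ∃ j : ℤ, ∀ t : ℤ, |t| ≤ R → x' (n + t) = x (j + t)) (hy : y ∈ oc x')
    (hy' : ∀ m, y ≠ sh m x') : y ∈ oc x := by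
  rw [mem_oc_iff] at hy ⊢
  intro R
  obtain ⟨B, hB⟩ := H R
  have h1 : ∀ m : ℤ, ∃ t : ℤ, y t ≠ x' (m + t) := by
    intro m
    by_contra hcon
    push Not at hcon
    exact hy' m (funext hcon)
  choose t ht using h1
  set R' := max R ((Finset.Icc (-(B : ℤ)) B).sup fun m => (t m).natAbs) with hR'
  obtain ⟨m, hm⟩ := hy R'
  have h2 : (B : ℤ) ≤ |m| := by
    by_contra hcon
    push Not at hcon
    rw [abs_lt] at hcon
    have h3 : (t m).natAbs ≤ R' := (Finset.le_sup (f := fun m => (t m).natAbs)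
      (Finset.mem_Icc.2 ⟨by omega, by omega⟩)).trans (le_max_right _ _)
    exact ht m (hm (t m) (by rw [Int.abs_eq_natAbs]; exact_mod_cast h3))
  obtain ⟨j, hj⟩ := hB m h2
  refine ⟨j, fun t ht => ?_⟩
  rw [← hj t ht]
  apply hm
  refine ht.trans ?_
  exact_mod_cast le_max_left R _

lemma xs_mem_succ (k : ℕ) : xs k ∈ oc (xs (k + 1)) := by
  rw [mem_oc_iff]
  intro R
  have hR : (R : ℤ) < 2 ^ R := by exact_mod_cast (Nat.lt_two_pow_self : R < 2 ^ R)
  refine ⟨2 ^ (R + k + 1), fun t ht => ?_⟩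
  rw [abs_le] at ht
  have h1 : (2 : ℤ) ^ R ≤ 2 ^ (R + k + 1) := pow_le_pow_right₀ (by norm_num) (by omega)
  rcases lt_or_ge t 0 with h | h
  · rw [xs_neg k h, xs_near (s := R) h (by omega) (by omega)]
  · rw [xs_block k h (by omega)]

lemma xs_zero_orbit {y : ℤ → Bool} (hy : y ∈ oc (xs 0)) : y = sh 0 (xs 0) := by
  rw [mem_oc_iff] at hy
  funext t
  obtain ⟨m, hm⟩ := hy t.natAbs
  rw [hm t (by rw [Int.abs_eq_natAbs]), sh, xs_zero, xs_zero]

/-- The trees. -/
noncomputable def Tk (k : ℕ) : Tree 2 := combT (xs k)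

lemma mem_leafClosure_Tk : ∀ (k : ℕ) (T : Tree 2), T ∈ leafClosure (Tk k) →
    ∃ j ≤ k, T ∈ orbit (Tk j)
  | 0, T, h => by
    obtain ⟨y, hy, hT⟩ := exists_of_mem_leafClosure h
    have h1 : combT y ∈ orbit (Tk 0) := combT_mem_orbit_iff.2 ⟨0, xs_zero_orbit hy⟩
    exact ⟨0, le_rfl, orbit_trans h1 hT⟩
  | k + 1, T, h => by
    obtain ⟨y, hy, hT⟩ := exists_of_mem_leafClosure h
    by_cases hy' : ∃ m, y = sh m (xs (k + 1))
    · exact ⟨k + 1, le_rfl, orbit_trans (combT_mem_orbit_iff.2 hy') hT⟩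
    · push Not at hy'
      have h1 := mem_oc_of_far (far_windows k) hy hy'
      have h2 : T ∈ leafClosure (Tk k) := orbit_subset_of_mem (combT_mem_leafClosure h1) hT
      obtain ⟨j, hj, hj'⟩ := mem_leafClosure_Tk k T h2
      exact ⟨j, by omega, hj'⟩

lemma Tk_mem (k : ℕ) : ∀ d, Tk k ∈ leafClosure (Tk (k + d))
  | 0 => self_mem_leafClosure _
  | d + 1 => leafClosure_subset (combT_mem_leafClosure (xs_mem_succ (k + d))) (Tk_mem k d)

lemma Tk_orbit {i j : ℕ} (h : Tk i ∈ orbit (Tk j)) : i = j := by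
  obtain ⟨m, hm⟩ := combT_mem_orbit_iff.1 h
  have hpos : ∀ k : ℕ, xs (k + 1) 0 = true := fun k => by
    have := xs_nat (k + 1) 0
    rw [f_succ_zero] at this
    exact_mod_cast this
  rcases i with _ | i <;> rcases j with _ | j
  · rfl
  · exfalso
    have h1 := congrFun hm (-m)
    rw [xs_zero, sh, add_neg_cancel, hpos] at h1
    exact absurd h1 (by decide)
  · exfalso
    have h1 := congrFun hm 0
    rw [hpos, sh, xs_zero] at h1
    exact absurd h1 (by decide)
  · have h1 : 0 ≤ m := by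
      by_contra hcon
      push Not at hcon
      have h1 := congrFun hm 0
      rw [hpos, sh, xs_neg _ (by omega)] at h1
      exact absurd h1 (by decide)
    have h2 : 0 ≤ -m := by
      by_contra hcon
      push Not at hcon
      have h1 := congrFun hm (-m)
      rw [xs_neg _ (by omega), sh, add_neg_cancel, hpos] at h1
      exact absurd h1 (by decide)
    have h3 : m = 0 := by omega
    subst h3
    have h4 : ∀ n : ℕ, f (i + 1) n = f (j + 1) n := by
      intro n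
      have := congrFun hm (n : ℤ)
      rwa [sh, zero_add, xs_nat, xs_nat] at this
    have h5 := h4 (2 ^ i - 1)
    have h6 := h4 (2 ^ j - 1)
    rw [f_pow_sub_one, f_pow_sub_one, decide_eq_decide] at h5 h6
    omega

lemma mem_nonDense_iff (k : ℕ) (T : Tree 2) : T ∈ nonDense (Tk k) ↔
    ∃ j < k, T ∈ orbit (Tk j) := by
  constructor
  · rintro ⟨h, hne⟩
    obtain ⟨j, hj, hj'⟩ := mem_leafClosure_Tk k T h
    refine ⟨j, lt_of_le_of_ne hj ?_, hj'⟩
    rintro rfl
    exact hne (leafClosure_eq hj')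
  · rintro ⟨j, hj, hj'⟩
    obtain ⟨d, rfl⟩ := Nat.exists_eq_add_of_lt hj
    refine ⟨orbit_subset_of_mem (by rw [add_assoc]; exact Tk_mem j _) hj', fun h => ?_⟩
    rw [leafClosure_eq hj'] at h
    have h1 : Tk (j + d + 1) ∈ leafClosure (Tk j) := by
      rw [h]
      exact self_mem_leafClosure _
    obtain ⟨i, hi, hi'⟩ := mem_leafClosure_Tk j _ h1
    have := Tk_orbit hi'
    omega

lemma nonDense_succ (k : ℕ) : nonDense (Tk (k + 1)) = leafClosure (Tk k) := by
  ext T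
  rw [mem_nonDense_iff]
  constructor
  · rintro ⟨j, hj, hj'⟩
    obtain ⟨d, rfl⟩ := Nat.exists_eq_add_of_le (Nat.lt_succ_iff.1 hj)
    exact orbit_subset_of_mem (Tk_mem j d) hj'
  · intro h
    obtain ⟨j, hj, hj'⟩ := mem_leafClosure_Tk k T h
    exact ⟨j, by omega, hj'⟩

lemma hasLevel_Tk : ∀ k, HasLevel k (Tk k) := by
  intro k
  induction k using Nat.strong_induction_on with
  | _ k ih =>
    cases k with
    | zero =>
      rw [hasLevel_zero]
      right
      intro T hT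
      obtain ⟨j, hj, hj'⟩ := mem_leafClosure_Tk 0 T hT
      obtain rfl := Nat.le_zero.1 hj
      exact leafClosure_eq hj'
    | succ k =>
      rw [hasLevel_succ]
      refine ⟨?_, ?_, Tk k, ?_, ih k (Nat.lt_succ_self k)⟩
      · rw [nonDense_succ]
        have h1 : closure (leafClosure (Tk k)) = leafClosure (Tk k) := isClosed_closure.closure_eq
        rw [h1]
        refine ssubset_of_subset_of_ne (leafClosure_subset (Tk_mem k 1)) fun h => ?_
        have h2 : Tk k ∈ nonDense (Tk (k + 1)) := (mem_nonDense_iff _ _).2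
          ⟨k, Nat.lt_succ_self k, self_mem_orbit _⟩
        exact h2.2 h
      · intro T hT
        obtain ⟨j, hj, hj'⟩ := (mem_nonDense_iff _ _).1 hT
        exact ⟨j, Nat.lt_succ_iff.1 hj, (hasLevel_congr hj' j).2 (ih j hj)⟩
      · exact (mem_nonDense_iff _ _).2 ⟨k, Nat.lt_succ_self k, self_mem_orbit _⟩

/-! ### Infinite level -/

/-- The sequence containing longer and longer pieces of all the `x^{(k)}`: on the first half of
the dyadic block starting at `2^m` it is `x^{(κ)}` with `κ = (Nat.unpair m).1`. -/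
def finf (n : ℕ) : Bool :=
  if n = 0 then false
  else if 2 * (n - 2 ^ Nat.log 2 n) < 2 ^ Nat.log 2 n then
    f (Nat.unpair (Nat.log 2 n)).1 (n - 2 ^ Nat.log 2 n) else false

/-- The two-sided version. -/
def xinf (n : ℤ) : Bool := decide (0 ≤ n) && finf n.toNat

/-- The tree at infinite level. -/
noncomputable def Tinf : Tree 2 := combT xinf

lemma finf_block {m r : ℕ} (hr : r < 2 ^ m) : finf (2 ^ m + r) =
    if 2 * r < 2 ^ m then f (Nat.unpair m).1 r else false := by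
  have h1 : 0 < 2 ^ m := Nat.two_pow_pos m
  have h2 : Nat.log 2 (2 ^ m + r) = m := by
    apply Nat.log_eq_of_pow_le_of_lt_pow (Nat.le_add_right _ _)
    rw [pow_succ]
    omega
  rw [finf, if_neg (by omega), h2, Nat.add_sub_cancel_left]

lemma xinf_nat (n : ℕ) : xinf (n : ℤ) = finf n := by
  unfold xinf
  rw [decide_eq_true (Int.natCast_nonneg n), Bool.true_and, Int.toNat_natCast]

lemma xs_mem_xinf (k : ℕ) : xs k ∈ oc xinf := by
  rw [mem_oc_iff]
  intro R
  set m := Nat.pair k (R + 2) with hm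
  have hmR : R + 2 ≤ m := Nat.right_le_pair _ _
  have hunp : (Nat.unpair m).1 = k := by rw [hm, Nat.unpair_pair]
  have hR : R < 2 ^ R := Nat.lt_two_pow_self
  have h1 : 2 ^ R ≤ 2 ^ (m - 2) := Nat.pow_le_pow_right (by norm_num) (by omega)
  have e1 : 2 ^ m = 2 * 2 ^ (m - 1) := by
    rw [← pow_succ']
    congr 1
    omega
  have e2 : 2 ^ (m - 1) = 2 * 2 ^ (m - 2) := by
    rw [← pow_succ']
    congr 1
    omega
  refine ⟨((2 ^ m : ℕ) : ℤ), fun t ht => ?_⟩
  rw [abs_le] at ht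
  rcases lt_or_ge t 0 with h | h
  · rw [xs_neg k h]
    obtain ⟨t', ht'⟩ := Int.eq_ofNat_of_zero_le (show 0 ≤ -t by omega)
    have h2 : ((2 ^ m : ℕ) : ℤ) + t = ((2 ^ (m - 1) + (2 ^ (m - 1) - t') : ℕ) : ℤ) := by
      have : t = -(t' : ℤ) := by
        have : ((t' : ℕ) : ℤ) = -t := ht'.symm
        omega
      subst this
      omega
    rw [h2, xinf_nat, finf_block (by omega), if_neg (by omega)]
  · obtain ⟨t', rfl⟩ := Int.eq_ofNat_of_zero_le h
    have h2 : ((2 ^ m : ℕ) : ℤ) + ((t' : ℕ) : ℤ) = ((2 ^ m + t' : ℕ) : ℤ) := by push_cast; ring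
    show xs k ((t' : ℕ) : ℤ) = xinf (((2 ^ m : ℕ) : ℤ) + ((t' : ℕ) : ℤ))
    rw [h2, xinf_nat, xs_nat, finf_block (by omega), if_pos (by omega), hunp]

lemma Tk_nonDense_Tinf (k : ℕ) : Tk k ∈ nonDense Tinf := by
  refine ⟨combT_mem_leafClosure (xs_mem_xinf k), fun h => ?_⟩
  have h1 : Tk (k + 1) ∈ leafClosure (Tk k) := by
    rw [h]
    exact combT_mem_leafClosure (xs_mem_xinf (k + 1))
  obtain ⟨j, hj, hj'⟩ := mem_leafClosure_Tk k _ h1
  have := Tk_orbit hj'
  omega

lemma not_hasLevel_Tinf (k : ℕ) : ¬ HasLevel k Tinf := by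
  intro h
  cases k with
  | zero =>
    rw [hasLevel_zero] at h
    have h1 := Tk_nonDense_Tinf 0
    rcases h with h | h
    · have h2 : leafClosure Tinf = orbit Tinf := h.isClosed.closure_eq
      have h3 := h1.1
      rw [h2] at h3
      exact h1.2 (leafClosure_eq h3)
    · exact h1.2 (h _ h1.1)
  | succ k =>
    rw [hasLevel_succ] at h
    obtain ⟨j, hj, hj'⟩ := h.2.1 _ (Tk_nonDense_Tinf (k + 1))
    have := (hasLevel_iff_of_hasLevel (hasLevel_Tk (k + 1)) j).1 hj'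
    omega

end Pool.Agent.V11107.GraphMatchbox
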