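import Mathlib

/-!
# Graph matchbox manifolds: trees in the Cayley graph of a free group, re-rooting, levels
-/

namespace Pool.Agent.V11107.GraphMatchbox

open Topology Set

/-- `g` and `h` are adjacent vertices of `T` (in the Cayley graph of the free group). -/
def Adj {n : ℕ} (T : FreeGroup (Fin n) → Bool) (g h : FreeGroup (Fin n)) : Prop :=
  T g = true ∧ T h = true ∧ ∃ i, h = g * FreeGroup.of i ∨ g = h * FreeGroup.of i

/-- `T` (the indicator function of the vertex set) is an infinite connected (induced) subtree of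
the Cayley graph of `F_n`, containing the identity. -/
def IsTree {n : ℕ} (T : FreeGroup (Fin n) → Bool) : Prop :=
  T 1 = true ∧ {g | T g = true}.Infinite ∧ ∀ g, T g = true → Relation.ReflTransGen (Adj T) 1 g

/-- The space `X` of infinite subtrees containing the identity, with the topology of local
agreement, i.e. the topology induced from the product topology. -/
abbrev Tree (n : ℕ) : Type := {T : FreeGroup (Fin n) → Bool // IsTree T}

/-- The set `{g⁻¹T : g ∈ V(T)}`, the trace of the leaf `L_T` on the transversal `X`. -/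
def orbit {n : ℕ} (T : Tree n) : Set (Tree n) :=
  {T' | ∃ g, T.1 g = true ∧ ∀ h, T'.1 h = T.1 (g * h)}

/-- The trace on `X` of the closure of the leaf `L_T`. -/
def leafClosure {n : ℕ} (T : Tree n) : Set (Tree n) := closure (orbit T)

/-- The trace on `X` of the union of the leaves of `closure L_T` that are not dense in
`closure L_T`. -/
def nonDense {n : ℕ} (T : Tree n) : Set (Tree n) :=
  {T' | T' ∈ leafClosure T ∧ leafClosure T' ≠ leafClosure T}

/-- The graph matchbox manifold `closure L_T` (equivalently, the leaf `L_T`) is at level `k`: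
* level `0`: `L_T` is a compact leaf (its trace is finite) or `closure L_T` is minimal;
* level `k + 1`: the closure of the union of the leaves not dense in `closure L_T` is a proper
  subset, every such leaf is at level at most `k`, and at least one such leaf is at level `k`. -/
def HasLevel {n : ℕ} : ℕ → Tree n → Prop
  | 0, T => (orbit T).Finite ∨ ∀ T' ∈ leafClosure T, leafClosure T' = leafClosure T
  | k + 1, T => closure (nonDense T) ⊂ leafClosure T ∧
      (∀ T' ∈ nonDense T, ∃ j, ∃ _ : j ≤ k, HasLevel j T') ∧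
      ∃ T' ∈ nonDense T, HasLevel k T'
termination_by k => k

/-! ### The orbit relation -/

variable {n : ℕ}

lemma self_mem_orbit (T : Tree n) : T ∈ orbit T := ⟨1, T.2.1, fun h => by rw [one_mul]⟩

lemma orbit_symm {T T' : Tree n} (h : T' ∈ orbit T) : T ∈ orbit T' := by
  obtain ⟨g, hg, h⟩ := h
  refine ⟨g⁻¹, ?_, fun k => ?_⟩
  · rw [h, mul_inv_cancel]; exact T.2.1
  · rw [h, mul_inv_cancel_left]

lemma orbit_trans {T T' T'' : Tree n} (h : T' ∈ orbit T) (h' : T'' ∈ orbit T') :
    T'' ∈ orbit T := by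
  obtain ⟨g, hg, h⟩ := h
  obtain ⟨g', hg', h'⟩ := h'
  refine ⟨g * g', ?_, fun k => ?_⟩
  · rw [← h]; exact hg'
  · rw [h', h, mul_assoc]

lemma orbit_eq {T T' : Tree n} (h : T' ∈ orbit T) : orbit T' = orbit T :=
  Subset.antisymm (fun _ h' => orbit_trans h h') fun _ h' => orbit_trans (orbit_symm h) h'

lemma leafClosure_eq {T T' : Tree n} (h : T' ∈ orbit T) : leafClosure T' = leafClosure T := by
  rw [leafClosure, orbit_eq h, leafClosure]

lemma mem_leafClosure_iff {T T' : Tree n} : T' ∈ leafClosure T ↔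
    ∀ K : Finset (FreeGroup (Fin n)), ∃ T'' ∈ orbit T, ∀ g ∈ K, T''.1 g = T'.1 g := by
  constructor
  · intro h K
    have hU : IsOpen {T'' : Tree n | ∀ g ∈ K, T''.1 g = T'.1 g} := by
      have : {T'' : Tree n | ∀ g ∈ K, T''.1 g = T'.1 g} =
          Subtype.val ⁻¹' Set.pi (K : Set (FreeGroup (Fin n))) fun g => {T'.1 g} := by
        ext T''
        simp [Set.mem_pi]
      rw [this]
      exact (isOpen_set_pi K.finite_toSet fun _ _ => isOpen_discrete _).preimage
        continuous_subtype_val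
    obtain ⟨T'', h1, h2⟩ := mem_closure_iff.1 h _ hU fun g _ => rfl
    exact ⟨T'', h2, h1⟩
  · intro h
    rw [leafClosure, mem_closure_iff]
    rintro U hU hT'
    obtain ⟨V, hV, rfl⟩ := isOpen_induced_iff.1 hU
    obtain ⟨I, u, hu, hIu⟩ := isOpen_pi_iff.1 hV T'.1 hT'
    obtain ⟨T'', h1, h2⟩ := h I
    refine ⟨T'', hIu fun g hg => ?_, h1⟩
    rw [h2 g hg]
    exact (hu g hg).2

lemma Adj.symm {T : FreeGroup (Fin n) → Bool} {g h : FreeGroup (Fin n)} (H : Adj T g h) :
    Adj T h g := by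
  obtain ⟨h1, h2, i, hi⟩ := H
  exact ⟨h2, h1, i, hi.symm⟩

lemma isTree_reroot {T : FreeGroup (Fin n) → Bool} (hT : IsTree T) {g : FreeGroup (Fin n)}
    (hg : T g = true) : IsTree fun k => T (g * k) := by
  refine ⟨by show T (g * 1) = true; rw [mul_one]; exact hg, ?_, ?_⟩
  · have h1 := hT.2.1.image (f := fun h => g⁻¹ * h) (mul_right_injective g⁻¹).injOn
    refine h1.mono ?_
    rintro _ ⟨h, hh, rfl⟩
    show T (g * (g⁻¹ * h)) = true
    rw [mul_inv_cancel_left]
    exact hh
  · intro k hk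
    have h1 := hT.2.2 g hg
    have h2 := hT.2.2 (g * k) hk
    have hs : Std.Symm (Adj T) := ⟨fun _ _ h => h.symm⟩
    have h3 : Relation.ReflTransGen (Adj T) g 1 := Relation.ReflTransGen.stdSymm.symm _ _ h1
    have hl : ∀ a b, Adj T a b → Adj (fun k => T (g * k)) (g⁻¹ * a) (g⁻¹ * b) := by
      rintro a b ⟨ha, hb, i, hi⟩
      refine ⟨?_, ?_, i, ?_⟩
      · simp only [mul_inv_cancel_left]; exact ha
      · simp only [mul_inv_cancel_left]; exact hb
      · rcases hi with rfl | rfl
        · left; rw [mul_assoc]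
        · right; rw [mul_assoc]
    have h4 : Relation.ReflTransGen (Adj fun k => T (g * k)) (g⁻¹ * g) (g⁻¹ * (g * k)) :=
      (h3.trans h2).lift (fun h => g⁻¹ * h) hl
    rwa [inv_mul_cancel, inv_mul_cancel_left] at h4

lemma orbit_subset_of_mem {T T' : Tree n} (h : T' ∈ leafClosure T) : orbit T' ⊆ leafClosure T := by
  classical
  rintro T'' ⟨g, hg, hT''⟩
  rw [mem_leafClosure_iff] at h ⊢
  intro K
  obtain ⟨S, hS, hS'⟩ := h (insert g (K.image (g * ·)))
  obtain ⟨g', hg', hSg⟩ := hS
  have h1 : S.1 g = true := by rw [hS' g (Finset.mem_insert_self _ _), hg]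
  -- re-root `S` at `g`
  have h2 : T.1 (g' * g) = true := by rw [← hSg]; exact h1
  have h3 : IsTree fun k => T.1 (g' * g * k) := isTree_reroot T.2 h2
  refine ⟨⟨_, h3⟩, ⟨g' * g, h2, fun _ => rfl⟩, fun k hk => ?_⟩
  show T.1 (g' * g * k) = _
  rw [mul_assoc, ← hSg, hS' _ (Finset.mem_insert_of_mem (Finset.mem_image_of_mem _ hk)), hT'']

lemma leafClosure_subset {T T' : Tree n} (h : T' ∈ leafClosure T) :
    leafClosure T' ⊆ leafClosure T :=
  closure_minimal (orbit_subset_of_mem h) isClosed_closure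

lemma hasLevel_zero (T : Tree n) : HasLevel 0 T ↔
    ((orbit T).Finite ∨ ∀ T' ∈ leafClosure T, leafClosure T' = leafClosure T) := by
  simp only [HasLevel]

lemma hasLevel_succ (k : ℕ) (T : Tree n) : HasLevel (k + 1) T ↔
    (closure (nonDense T) ⊂ leafClosure T ∧
      (∀ T' ∈ nonDense T, ∃ j, ∃ _ : j ≤ k, HasLevel j T') ∧
      ∃ T' ∈ nonDense T, HasLevel k T') := by
  rw [HasLevel]

lemma self_mem_leafClosure (T : Tree n) : T ∈ leafClosure T := subset_closure (self_mem_orbit T)

/-- A leaf has at most one level. -/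
lemma level_unique : ∀ (k j : ℕ) (T : Tree n), j < k → HasLevel j T → ¬ HasLevel k T
  | 0, _, _, h => absurd h (Nat.not_lt_zero _)
  | k + 1, 0, T, _ => by
    intro h0 hk
    rw [hasLevel_zero] at h0
    rw [hasLevel_succ] at hk
    obtain ⟨T', ⟨hT', hne⟩, -⟩ := hk.2.2
    rcases h0 with h0 | h0
    · have h1 : leafClosure T = orbit T := h0.isClosed.closure_eq
      rw [h1] at hT'
      exact hne (leafClosure_eq hT')
    · exact hne (h0 T' hT')
  | k + 1, j + 1, T, h => by
    intro hj hk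
    rw [hasLevel_succ] at hj hk
    obtain ⟨T', hT', hk'⟩ := hk.2.2
    obtain ⟨i, hi, hi'⟩ := hj.2.1 T' hT'
    exact level_unique k i T' (by omega) hi' hk'

lemma hasLevel_iff_of_hasLevel {k : ℕ} {T : Tree n} (h : HasLevel k T) (j : ℕ) :
    HasLevel j T ↔ j = k := by
  constructor
  · intro h'
    rcases lt_trichotomy j k with h1 | h1 | h1
    · exact absurd h (level_unique k j T h1 h')
    · exact h1
    · exact absurd h' (level_unique j k T h1 h)
  · rintro rfl
    exact h

lemma hasLevel_congr {T T' : Tree n} (h : T' ∈ orbit T) : ∀ k, HasLevel k T' ↔ HasLevel k T := by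
  intro k
  have h1 := orbit_eq h
  have h2 := leafClosure_eq h
  have h3 : nonDense T' = nonDense T := by
    unfold nonDense
    rw [h2]
  cases k with
  | zero => rw [hasLevel_zero, hasLevel_zero, h1, h2]
  | succ k => rw [hasLevel_succ, hasLevel_succ, h2, h3]

/-! ### Combs -/

/-- The tree with vertices `a^m` (`m ∈ ℤ`) and `a^m b` for `x_m = 1`. -/
def IsCombVertex (x : ℤ → Bool) (g : FreeGroup (Fin 2)) : Prop :=
  (∃ m : ℤ, g = FreeGroup.of 0 ^ m) ∨ ∃ m : ℤ, x m = true ∧ g = FreeGroup.of 0 ^ m * FreeGroup.of 1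

open Classical in
/-- The indicator function of the vertex set of the comb of `x`. -/
noncomputable def comb (x : ℤ → Bool) (g : FreeGroup (Fin 2)) : Bool := decide (IsCombVertex x g)

lemma comb_iff {x : ℤ → Bool} {g : FreeGroup (Fin 2)} : comb x g = true ↔ IsCombVertex x g := by
  simp [comb]

/-- Exponent sum of the first generator. -/
def ex (g : FreeGroup (Fin 2)) : ℤ :=
  Multiplicative.toAdd (FreeGroup.lift (fun i : Fin 2 =>
    if i = 0 then Multiplicative.ofAdd (1 : ℤ) else 1) g)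

/-- Exponent sum of the second generator. -/
def ey (g : FreeGroup (Fin 2)) : ℤ :=
  Multiplicative.toAdd (FreeGroup.lift (fun i : Fin 2 =>
    if i = 0 then 1 else Multiplicative.ofAdd (1 : ℤ)) g)

lemma ex_a (m : ℤ) : ex (FreeGroup.of 0 ^ m) = m := by simp [ex]
lemma ex_ab (m : ℤ) : ex (FreeGroup.of 0 ^ m * FreeGroup.of 1) = m := by simp [ex]
lemma ey_a (m : ℤ) : ey (FreeGroup.of 0 ^ m) = 0 := by simp [ey]
lemma ey_ab (m : ℤ) : ey (FreeGroup.of 0 ^ m * FreeGroup.of 1) = 1 := by simp [ey]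
lemma ex_aba (m : ℤ) : ex (FreeGroup.of 0 ^ m * FreeGroup.of 1 * FreeGroup.of 0) = m + 1 := by
  simp [ex]
lemma ey_aba (m : ℤ) : ey (FreeGroup.of 0 ^ m * FreeGroup.of 1 * FreeGroup.of 0) = 1 := by
  simp [ey]

lemma not_comm : (FreeGroup.of 1 * FreeGroup.of 0 : FreeGroup (Fin 2)) ≠
    FreeGroup.of 0 * FreeGroup.of 1 := by
  intro h
  have h1 := congrArg (FreeGroup.lift (fun i : Fin 2 =>
    if i = 0 then Equiv.swap (0 : Fin 3) 1 else Equiv.swap (1 : Fin 3) 2)) h
  simp only [map_mul, FreeGroup.lift_apply_of] at h1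
  revert h1
  decide

/-- The shift. -/
def sh (m : ℤ) (x : ℤ → Bool) : ℤ → Bool := fun t => x (m + t)

lemma comb_shift (x : ℤ → Bool) (m : ℤ) (h : FreeGroup (Fin 2)) :
    comb x (FreeGroup.of 0 ^ m * h) = comb (sh m x) h := by
  rw [Bool.eq_iff_iff, comb_iff, comb_iff]
  constructor
  · rintro (⟨k, hk⟩ | ⟨k, hk, hk'⟩)
    · refine Or.inl ⟨-m + k, ?_⟩
      rw [zpow_add, ← hk, zpow_neg, inv_mul_cancel_left]
    · refine Or.inr ⟨-m + k, ?_, ?_⟩
      · rw [sh, add_neg_cancel_left]; exact hk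
      · rw [zpow_add, mul_assoc, ← hk', zpow_neg, inv_mul_cancel_left]
  · rintro (⟨k, rfl⟩ | ⟨k, hk, rfl⟩)
    · exact Or.inl ⟨m + k, by rw [zpow_add]⟩
    · exact Or.inr ⟨m + k, hk, by rw [zpow_add, mul_assoc]⟩

lemma comb_ab (x : ℤ → Bool) (m : ℤ) :
    comb x (FreeGroup.of 0 ^ m * FreeGroup.of 1) = x m := by
  rw [Bool.eq_iff_iff, comb_iff]
  constructor
  · rintro (⟨k, hk⟩ | ⟨k, hk, hk'⟩)
    · have h1 := congrArg ey hk
      rw [ey_ab, ey_a] at h1
      exact absurd h1 one_ne_zero
    · have h1 := congrArg ex hk'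
      rw [ex_ab, ex_ab] at h1
      rw [h1]
      exact hk
  · intro h
    exact Or.inr ⟨m, h, rfl⟩

lemma comb_a (x : ℤ → Bool) (m : ℤ) : comb x (FreeGroup.of 0 ^ m) = true :=
  comb_iff.2 (Or.inl ⟨m, rfl⟩)

lemma continuous_comb : Continuous comb := by
  refine continuous_pi fun g => ?_
  by_cases h1 : ∃ m : ℤ, g = FreeGroup.of 0 ^ m
  · obtain ⟨m, rfl⟩ := h1
    simp only [comb_a]
    exact continuous_const
  by_cases h2 : ∃ m : ℤ, g = FreeGroup.of 0 ^ m * FreeGroup.of 1
  · obtain ⟨m, rfl⟩ := h2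
    simp only [comb_ab]
    exact continuous_apply m
  · have : (fun x => comb x g) = fun _ => false := by
      funext x
      rw [← Bool.not_eq_true, comb_iff]
      rintro (⟨m, hm⟩ | ⟨m, -, hm⟩)
      · exact h1 ⟨m, hm⟩
      · exact h2 ⟨m, hm⟩
    rw [this]
    exact continuous_const

lemma isTree_comb (x : ℤ → Bool) : IsTree (comb x) := by
  have hz : comb x 1 = true := by
    have := comb_a x 0
    rwa [zpow_zero] at this
  have hpath : ∀ m : ℤ, Relation.ReflTransGen (Adj (comb x)) 1 (FreeGroup.of 0 ^ m) := by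
    intro m
    induction m using Int.induction_on with
    | zero => rw [zpow_zero]
    | succ m ih =>
      refine ih.tail ⟨comb_a _ _, comb_a _ _, 0, Or.inl ?_⟩
      rw [zpow_add_one]
    | pred m ih =>
      refine ih.tail ⟨comb_a _ _, comb_a _ _, 0, Or.inr ?_⟩
      rw [← zpow_add_one]
      congr 1
      ring
  refine ⟨hz, ?_, ?_⟩
  · refine Set.infinite_of_injective_forall_mem (f := fun m : ℤ => FreeGroup.of (0 : Fin 2) ^ m)
      (fun m k h => ?_) fun m => comb_a x m
    have := congrArg ex h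
    simpa only [ex_a] using this
  · intro g hg
    rcases comb_iff.1 hg with ⟨m, rfl⟩ | ⟨m, hm, rfl⟩
    · exact hpath m
    · exact (hpath m).tail ⟨comb_a _ _, hg, 1, Or.inl rfl⟩

/-- The comb of `x` as a point of `X`. -/
noncomputable def combT (x : ℤ → Bool) : Tree 2 := ⟨comb x, isTree_comb x⟩

lemma continuous_combT : Continuous combT := continuous_comb.subtype_mk _

/-- The closure of the orbit of `x` under the shift. -/
def oc (x : ℤ → Bool) : Set (ℤ → Bool) := closure (range fun m => sh m x)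

lemma mem_oc_iff {x y : ℤ → Bool} : y ∈ oc x ↔
    ∀ R : ℕ, ∃ m : ℤ, ∀ t : ℤ, |t| ≤ R → y t = x (m + t) := by
  constructor
  · intro h R
    have hU : IsOpen {z : ℤ → Bool | ∀ t : ℤ, |t| ≤ R → z t = y t} := by
      have : {z : ℤ → Bool | ∀ t : ℤ, |t| ≤ R → z t = y t} =
          Set.pi (Set.Icc (-(R : ℤ)) R) fun t => {y t} := by
        ext z
        simp [Set.mem_pi, abs_le]
      rw [this]
      exact isOpen_set_pi (Set.finite_Icc _ _) fun _ _ => isOpen_discrete _
    obtain ⟨_, h1, m, rfl⟩ := mem_closure_iff.1 h _ hU fun t _ => rfl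
    exact ⟨m, fun t ht => (h1 t ht).symm⟩
  · intro h
    rw [oc, mem_closure_iff]
    intro V hV hy
    obtain ⟨I, u, hu, hIu⟩ := isOpen_pi_iff.1 hV y hy
    obtain ⟨m, hm⟩ := h (I.sup Int.natAbs)
    refine ⟨sh m x, hIu fun t ht => ?_, m, rfl⟩
    have h1 : |t| ≤ ((I.sup Int.natAbs : ℕ) : ℤ) := by
      rw [Int.abs_eq_natAbs]
      exact_mod_cast Finset.le_sup (f := Int.natAbs) ht
    show x (m + t) ∈ u t
    rw [← hm t h1]
    exact (hu t ht).2

lemma exists_of_mem_leafClosure {x : ℤ → Bool} {T' : Tree 2} (h : T' ∈ leafClosure (combT x)) :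
    ∃ y ∈ oc x, T' ∈ orbit (combT y) := by
  have hoc : IsCompact (oc x) := isClosed_closure.isCompact
  have c1 : IsClosed (Subtype.val ⁻¹' (comb '' oc x) : Set (Tree 2)) :=
    (hoc.image continuous_comb).isClosed.preimage continuous_subtype_val
  have hoc2 : IsCompact (oc x ∩ {y | y 0 = true}) :=
    hoc.inter_right (isClosed_eq (continuous_apply 0) continuous_const)
  have hcont : Continuous fun (y : ℤ → Bool) (h : FreeGroup (Fin 2)) =>
      comb y (FreeGroup.of 1 * h) :=
    continuous_pi fun h => (continuous_apply _).comp continuous_comb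
  have c2 : IsClosed (Subtype.val ⁻¹' ((fun (y : ℤ → Bool) (h : FreeGroup (Fin 2)) =>
      comb y (FreeGroup.of 1 * h)) '' (oc x ∩ {y | y 0 = true})) : Set (Tree 2)) :=
    (hoc2.image hcont).isClosed.preimage continuous_subtype_val
  have hsub : orbit (combT x) ⊆ (Subtype.val ⁻¹' (comb '' oc x) : Set (Tree 2)) ∪
      (Subtype.val ⁻¹' ((fun (y : ℤ → Bool) (h : FreeGroup (Fin 2)) =>
      comb y (FreeGroup.of 1 * h)) '' (oc x ∩ {y | y 0 = true})) : Set (Tree 2)) := by
    rintro T'' ⟨g, hg, hT⟩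
    rcases comb_iff.1 hg with ⟨m, rfl⟩ | ⟨m, hm, rfl⟩
    · left
      refine ⟨sh m x, subset_closure ⟨m, rfl⟩, ?_⟩
      funext k
      rw [hT k]
      exact (comb_shift x m k).symm
    · right
      refine ⟨sh m x, ⟨subset_closure ⟨m, rfl⟩, ?_⟩, ?_⟩
      · show x (m + 0) = true
        rw [add_zero]; exact hm
      · funext k
        rw [hT k]
        show comb (sh m x) _ = comb x _
        rw [mul_assoc, comb_shift]
  rcases closure_minimal hsub (c1.union c2) h with ⟨y, hy, hyT⟩ | ⟨y, ⟨hy, hy0⟩, hyT⟩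
  · refine ⟨y, hy, 1, (combT y).2.1, fun k => ?_⟩
    rw [one_mul, ← hyT]
    rfl
  · refine ⟨y, hy, FreeGroup.of 1, ?_, fun k => ?_⟩
    · have := comb_ab y 0
      rw [zpow_zero, one_mul] at this
      show comb y (FreeGroup.of 1) = true
      rw [this]
      exact hy0
    · rw [← hyT]
      rfl

lemma combT_mem_leafClosure {x y : ℤ → Bool} (h : y ∈ oc x) :
    combT y ∈ leafClosure (combT x) := by
  refine map_mem_closure continuous_combT h ?_
  rintro _ ⟨m, rfl⟩
  exact ⟨FreeGroup.of 0 ^ m, comb_a x m, fun k => (comb_shift x m k).symm⟩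

lemma combT_mem_orbit_iff {x y : ℤ → Bool} : combT y ∈ orbit (combT x) ↔ ∃ m, y = sh m x := by
  constructor
  · rintro ⟨g, hg, hT⟩
    rcases comb_iff.1 hg with ⟨m, rfl⟩ | ⟨m, hm, rfl⟩
    · refine ⟨m, ?_⟩
      funext t
      rw [← comb_ab y t, ← comb_ab (sh m x) t, ← comb_shift]
      exact hT _
    · exfalso
      have h1 := hT (FreeGroup.of 0)
      have h2 : comb y (FreeGroup.of 0) = true := by
        have := comb_a y 1
        rwa [zpow_one] at this
      have h3 : comb x (FreeGroup.of 0 ^ m * FreeGroup.of 1 * FreeGroup.of 0) = true := by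
        rw [← h2]
        exact h1.symm
      rcases comb_iff.1 h3 with ⟨k, hk⟩ | ⟨k, -, hk⟩
      · have h4 := congrArg ey hk
        rw [ey_aba, ey_a] at h4
        exact one_ne_zero h4
      · have h4 := congrArg ex hk
        rw [ex_aba, ex_ab] at h4
        rw [← h4, zpow_add_one, mul_assoc, mul_assoc] at hk
        exact not_comm (mul_left_cancel hk)
  · rintro ⟨m, rfl⟩
    exact ⟨FreeGroup.of 0 ^ m, comb_a x m, fun k => (comb_shift x m k).symm⟩

end Pool.Agent.V11107.GraphMatchbox
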