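import Mathlib

/-!
# An injunctive subshift that is not surjunctive

The alphabet is `Bool × Bool` (two tracks).  `T a` is the indicator of `{a + 4 ^ k}`, `X` is the closure
of the set of all pairs `(T a, T b)` with `a ≤ b`.
-/

namespace Pool.Agent.V11107.Injunctive

open Set Filter Topology

/-- powers of `4` -/
def P (n : ℤ) : Prop := ∃ k : ℕ, n = 4 ^ k

open Classical in
/-- indicator of `a + {4 ^ k}` -/
noncomputable def T (a : ℤ) : ℤ → Bool := fun i => decide (P (i - a))

/-- indicator of `a` -/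
def δ (a : ℤ) : ℤ → Bool := fun i => decide (i = a)

/-- the empty track -/
def O : ℤ → Bool := fun _ => false

/-- join of two tracks -/
def pr (x y : ℤ → Bool) : ℤ → Bool × Bool := fun i => (x i, y i)

/-- shift by `s` -/
def sh {α : Type*} (s : ℤ) (z : ℤ → α) : ℤ → α := fun i => z (i + s)

/-- the dense orbit family -/
def D : Set (ℤ → Bool × Bool) := {z | ∃ a b : ℤ, a ≤ b ∧ z = pr (T a) (T b)}

/-- the subshift -/
def X : Set (ℤ → Bool × Bool) := closure D

open Classical in
lemma T_true {a i : ℤ} : T a i = true ↔ P (i - a) := by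
  unfold T; exact decide_eq_true_iff

lemma δ_true {a i : ℤ} : δ a i = true ↔ i = a := by
  unfold δ; exact decide_eq_true_iff

lemma δ_false {a i : ℤ} : δ a i = false ↔ i ≠ a := by
  unfold δ; exact decide_eq_false_iff_not

lemma sh_T (s a : ℤ) : sh s (T a) = T (a - s) := by
  funext i
  rw [Bool.eq_iff_iff]
  unfold sh
  rw [T_true, T_true]
  have : i + s - a = i - (a - s) := by ring
  rw [this]

lemma sh_δ (s a : ℤ) : sh s (δ a) = δ (a - s) := by
  funext i
  rw [Bool.eq_iff_iff]
  unfold sh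
  rw [δ_true, δ_true]
  constructor <;> intro h <;> omega

lemma sh_O (s : ℤ) : sh s O = O := rfl

lemma sh_pr (s : ℤ) (x y : ℤ → Bool) : sh s (pr x y) = pr (sh s x) (sh s y) := rfl

lemma sh_add {α : Type*} (s t : ℤ) (z : ℤ → α) : sh s (sh t z) = sh (s + t) z := by
  funext i
  change z (i + s + t) = z (i + (s + t))
  rw [add_assoc]

lemma sh_zero {α : Type*} (z : ℤ → α) : sh 0 z = z := by
  funext i
  change z (i + 0) = z i
  rw [add_zero]

lemma continuous_sh {α : Type*} [TopologicalSpace α] (s : ℤ) :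
    Continuous (sh s : (ℤ → α) → (ℤ → α)) :=
  continuous_pi fun i => continuous_apply (i + s)

lemma continuous_pr : Continuous fun p : (ℤ → Bool) × (ℤ → Bool) => pr p.1 p.2 := by
  apply continuous_pi
  intro i
  exact ((continuous_apply i).comp continuous_fst).prodMk ((continuous_apply i).comp continuous_snd)

/-- second-track shift -/
def tau (j k : ℤ) (z : ℤ → Bool × Bool) : ℤ → Bool × Bool := fun i => ((z (i - j)).1, (z (i - k)).2)

lemma continuous_tau (j k : ℤ) : Continuous (tau j k) :=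
  continuous_pi fun i =>
    (continuous_fst.comp (continuous_apply (i - j))).prodMk
      (continuous_snd.comp (continuous_apply (i - k)))

lemma tau_pr (j k : ℤ) (x y : ℤ → Bool) : tau j k (pr x y) = pr (sh (-j) x) (sh (-k) y) := by
  funext i
  simp only [tau, pr, sh, sub_eq_add_neg]

lemma tau_T (j k a b : ℤ) : tau j k (pr (T a) (T b)) = pr (T (a + j)) (T (b + k)) := by
  rw [tau_pr, sh_T, sh_T, sub_neg_eq_add, sub_neg_eq_add]

lemma tau_inj (j k : ℤ) : Function.Injective (tau j k) := by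
  intro z w h
  funext i
  have h1 := congrFun h (i + j)
  have h2 := congrFun h (i + k)
  simp only [tau, add_sub_cancel_right, Prod.mk.injEq] at h1 h2
  exact Prod.ext h1.1 h2.2

lemma mem_D {a b : ℤ} (h : a ≤ b) : pr (T a) (T b) ∈ X := subset_closure ⟨a, b, h, rfl⟩

lemma sh_mem (s : ℤ) {z : ℤ → Bool × Bool} (hz : z ∈ X) : sh s z ∈ X := by
  refine map_mem_closure (continuous_sh s) hz ?_
  rintro _ ⟨a, b, hab, rfl⟩
  exact ⟨a - s, b - s, by omega, by rw [sh_pr, sh_T, sh_T]⟩

lemma tau_mem {z : ℤ → Bool × Bool} (hz : z ∈ X) : tau 0 1 z ∈ X := by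
  refine map_mem_closure (continuous_tau 0 1) hz ?_
  rintro _ ⟨a, b, hab, rfl⟩
  exact ⟨a + 0, b + 1, by omega, by rw [tau_T]⟩

lemma isClosed_X : IsClosed X := isClosed_closure

/-! ### Arithmetic of powers of four -/

lemma pow4_gap {k l : ℕ} (h : k < l) : 4 * (4 : ℤ) ^ k ≤ 4 ^ l := by
  rw [← pow_succ']
  exact pow_le_pow_right₀ (by norm_num) h

lemma pow4_lt {k l : ℕ} (h : (4 : ℤ) ^ k < 4 ^ l) : k < l := by
  by_contra hc
  push Not at hc
  exact absurd (pow_le_pow_right₀ (by norm_num : (1 : ℤ) ≤ 4) hc) (not_le.2 h)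

lemma not_P_two : ¬ P 2 := by
  rintro ⟨k, hk⟩
  rcases k with _ | k
  · norm_num at hk
  · rw [pow_succ] at hk; omega

lemma P_one : P 1 := ⟨0, by norm_num⟩

lemma P_four : P 4 := ⟨1, by norm_num⟩

lemma P_pos {n : ℤ} (h : P n) : 0 < n := by
  obtain ⟨k, rfl⟩ := h; positivity

/-- two elements of `P` with difference `3` -/
lemma P_diff_three {n : ℤ} (h : P n) (h' : P (n + 3)) : n = 1 := by
  obtain ⟨k, rfl⟩ := h
  obtain ⟨l, hl⟩ := h'
  rcases k with _ | k
  · norm_num
  · rcases l with _ | l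
    · have : (0 : ℤ) < 4 ^ (k + 1) := by positivity
      rw [pow_zero] at hl
      omega
    · rw [pow_succ, pow_succ] at hl
      omega

lemma P_diff_bound {n d : ℤ} (hd : 0 < d) (h : P n) (h' : P (n + d)) : n ≤ d := by
  obtain ⟨k, rfl⟩ := h
  obtain ⟨l, hl⟩ := h'
  have : k < l := pow4_lt (by omega)
  have := pow4_gap this
  have : (0 : ℤ) < 4 ^ k := by positivity
  omega

lemma tendsto_pow4 : Tendsto (fun k : ℕ => (4 : ℤ) ^ k) atTop atTop :=
  tendsto_pow_atTop_atTop_of_one_lt (by norm_num)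

/-- for large `k`, `c + 4 ^ k` is a power of four only if `c = 0` -/
lemma ev_P (c : ℤ) : ∀ᶠ k : ℕ in atTop, (P (c + 4 ^ k) ↔ c = 0) := by
  filter_upwards [tendsto_pow4.eventually_gt_atTop (4 * |c|)] with k hk
  constructor
  · rintro ⟨l, hl⟩
    by_contra hc
    have hc1 := le_abs_self c
    have hc2 := neg_abs_le c
    have hcp : 0 < |c| := abs_pos.2 hc
    rcases lt_trichotomy k l with h | h | h
    · have := pow4_gap h
      omega
    · subst h
      omega
    · have := pow4_gap h
      have : (0 : ℤ) < 4 ^ l := by positivity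
      omega
  · rintro rfl
    exact ⟨k, by ring⟩

lemma isOpen_coord {α : Type*} [TopologicalSpace α] [DiscreteTopology α] (i : ℤ) (U : Set α) :
    IsOpen {z : ℤ → α | z i ∈ U} := (isOpen_discrete U).preimage (continuous_apply i)

/-! ### The tracks -/

/-- possible tracks -/
def E (e : ℤ → Bool) : Prop := e = O ∨ (∃ a, e = δ a) ∨ ∃ a, e = T a

lemma E_iff (e : ℤ → Bool) : E e ↔ ∀ i j : ℤ, i < j →
    ¬ (e i = true ∧ e j = true) ∨ e ∈ T '' (Icc (2 * i - j) i) := by
  constructor
  · rintro (rfl | ⟨a, rfl⟩ | ⟨a, rfl⟩) i j hij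
    · left; rintro ⟨h, -⟩; simp [O] at h
    · left; rintro ⟨h1, h2⟩; rw [δ_true] at h1 h2; omega
    · by_cases h : T a i = true ∧ T a j = true
      · right
        rw [T_true, T_true] at h
        have h1 : P (i - a + (j - i)) := by
          have := h.2
          rwa [show i - a + (j - i) = j - a by ring]
        have h2 := P_diff_bound (by omega) h.1 h1
        have h3 := P_pos h.1
        exact ⟨a, ⟨by omega, by omega⟩, rfl⟩
      · left; exact h
  · intro h
    by_cases h0 : ∃ i, e i = true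
    · obtain ⟨i, hi⟩ := h0
      by_cases h1 : ∃ j, j ≠ i ∧ e j = true
      · obtain ⟨j, hji, hj⟩ := h1
        rcases lt_or_gt_of_ne hji with h2 | h2
        · rcases h j i h2 with h3 | ⟨a, -, h3⟩
          · exact absurd ⟨hj, hi⟩ h3
          · exact Or.inr (Or.inr ⟨a, h3.symm⟩)
        · rcases h i j h2 with h3 | ⟨a, -, h3⟩
          · exact absurd ⟨hi, hj⟩ h3
          · exact Or.inr (Or.inr ⟨a, h3.symm⟩)
      · push Not at h1
        refine Or.inr (Or.inl ⟨i, ?_⟩)
        funext j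
        rw [Bool.eq_iff_iff, δ_true]
        constructor
        · intro hj
          by_contra hji
          exact h1 j hji hj
        · rintro rfl; exact hi
    · push Not at h0
      left
      funext i
      have := h0 i
      simpa [O] using this

lemma isClosed_E : IsClosed {e | E e} := by
  have : {e | E e} = ⋂ i : ℤ, ⋂ j : ℤ, ⋂ _ : i < j,
      ({e : ℤ → Bool | ¬ (e i = true ∧ e j = true)} ∪ T '' (Icc (2 * i - j) i)) := by
    ext e
    simp only [mem_iInter]
    exact E_iff e
  rw [this]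
  refine isClosed_iInter fun i => isClosed_iInter fun j => isClosed_iInter fun _ => ?_
  refine IsClosed.union ?_ ((finite_Icc _ _).image _).isClosed
  have h1 : IsOpen {e : ℤ → Bool | e i = true} := isOpen_coord i {b | b = true}
  have h2 : IsOpen {e : ℤ → Bool | e j = true} := isOpen_coord j {b | b = true}
  exact (h1.inter h2).isClosed_compl

/-- first track -/
def t1 (z : ℤ → Bool × Bool) : ℤ → Bool := fun i => (z i).1

/-- second track -/
def t2 (z : ℤ → Bool × Bool) : ℤ → Bool := fun i => (z i).2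

lemma pr_t (z : ℤ → Bool × Bool) : pr (t1 z) (t2 z) = z := rfl

lemma mem_E {z : ℤ → Bool × Bool} (hz : z ∈ X) : E (t1 z) ∧ E (t2 z) := by
  have hc1 : Continuous t1 := continuous_pi fun i => continuous_fst.comp (continuous_apply i)
  have hc2 : Continuous t2 := continuous_pi fun i => continuous_snd.comp (continuous_apply i)
  have : IsClosed {z | E (t1 z) ∧ E (t2 z)} :=
    (isClosed_E.preimage hc1).inter (isClosed_E.preimage hc2)
  refine closure_minimal ?_ this hz
  rintro _ ⟨a, b, -, rfl⟩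
  exact ⟨Or.inr (Or.inr ⟨a, rfl⟩), Or.inr (Or.inr ⟨b, rfl⟩)⟩

lemma le_of_mem {a c : ℤ} (h : pr (T a) (T c) ∈ X) : a ≤ c := by
  have ho : IsOpen {z : ℤ → Bool × Bool | z (a + 1) ∈ {p : Bool × Bool | p.1 = true} ∧
      z (a + 4) ∈ {p : Bool × Bool | p.1 = true} ∧ z (c + 1) ∈ {p : Bool × Bool | p.2 = true} ∧
      z (c + 4) ∈ {p : Bool × Bool | p.2 = true}} := by
    exact (isOpen_coord (a + 1) {p : Bool × Bool | p.1 = true}).inter
      ((isOpen_coord (a + 4) {p : Bool × Bool | p.1 = true}).inter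
      ((isOpen_coord (c + 1) {p : Bool × Bool | p.2 = true}).inter
      (isOpen_coord (c + 4) {p : Bool × Bool | p.2 = true})))
  have h1 : T a (a + 1) = true := by rw [T_true]; simpa using P_one
  have h2 : T a (a + 4) = true := by rw [T_true]; simpa using P_four
  have h3 : T c (c + 1) = true := by rw [T_true]; simpa using P_one
  have h4 : T c (c + 4) = true := by rw [T_true]; simpa using P_four
  obtain ⟨_, ⟨g1, g2, g3, g4⟩, ⟨a', b', hab, rfl⟩⟩ := mem_closure_iff.1 h _ ho ⟨h1, h2, h3, h4⟩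
  change T a' (a + 1) = true at g1
  change T a' (a + 4) = true at g2
  change T b' (c + 1) = true at g3
  change T b' (c + 4) = true at g4
  rw [T_true] at g1 g2 g3 g4
  have e1 := P_diff_three g1 (by rwa [show a + 1 - a' + 3 = a + 4 - a' by ring])
  have e2 := P_diff_three g3 (by rwa [show c + 1 - b' + 3 = c + 4 - b' by ring])
  omega

/-! ### Limits -/

lemma mem_of_lim {z : ℕ → ℤ → Bool × Bool} {w : ℤ → Bool × Bool} (hz : ∀ᶠ k in atTop, z k ∈ X)
    (h : ∀ i, ∀ᶠ k in atTop, z k i = w i) : w ∈ X := by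
  refine isClosed_X.mem_of_tendsto (b := atTop) (f := z) ?_ hz
  rw [tendsto_pi_nhds]
  intro i
  exact tendsto_nhds_of_eventually_eq (h i)

lemma ev_T (a m : ℤ) : ∀ᶠ k : ℕ in atTop, T (a - 4 ^ k) m = δ a m := by
  filter_upwards [ev_P (m - a)] with k hk
  rw [Bool.eq_iff_iff, T_true, δ_true, show m - (a - 4 ^ k) = m - a + 4 ^ k by ring, hk]
  omega

lemma ev_T' (a m : ℤ) : ∀ᶠ k : ℕ in atTop, T a (m + 4 ^ k) = δ a m := by
  filter_upwards [ev_T a m] with k hk
  rw [← hk, Bool.eq_iff_iff, T_true, T_true, show m + 4 ^ k - a = m - (a - 4 ^ k) by ring]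

lemma ev_δ (a m : ℤ) : ∀ᶠ k : ℕ in atTop, δ a (m + 4 ^ k) = O m := by
  filter_upwards [tendsto_pow4.eventually_gt_atTop (a - m)] with k hk
  change _ = false
  rw [δ_false]
  omega

lemma mem_δδ (a c : ℤ) : pr (δ a) (δ c) ∈ X := by
  refine mem_of_lim (z := fun k => pr (T (a - 4 ^ (k + 1))) (T (c - 4 ^ k))) ?_ ?_
  · filter_upwards [tendsto_pow4.eventually_gt_atTop (a - c)] with k hk
    apply mem_D
    have : (0 : ℤ) < 4 ^ k := by positivity
    rw [pow_succ]
    omega
  · intro i
    have h1 := (tendsto_add_atTop_nat 1).eventually (ev_T a i)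
    filter_upwards [h1, ev_T c i] with k hk1 hk2
    exact Prod.ext hk1 hk2

lemma mem_δO (a : ℤ) : pr (δ a) O ∈ X := by
  refine mem_of_lim (z := fun k => pr (δ a) (δ (k : ℤ))) (Eventually.of_forall fun k => mem_δδ _ _) ?_
  intro i
  filter_upwards [eventually_gt_atTop i.toNat] with k hk
  refine Prod.ext rfl ?_
  change δ (k : ℤ) i = false
  rw [δ_false]
  omega

lemma mem_Oδ (a : ℤ) : pr O (δ a) ∈ X := by
  refine mem_of_lim (z := fun k => pr (δ (k : ℤ)) (δ a)) (Eventually.of_forall fun k => mem_δδ _ _) ?_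
  intro i
  filter_upwards [eventually_gt_atTop i.toNat] with k hk
  refine Prod.ext ?_ rfl
  change δ (k : ℤ) i = false
  rw [δ_false]
  omega

lemma mem_OO : pr O O ∈ X := by
  refine mem_of_lim (z := fun k => pr (δ (k : ℤ)) O) (Eventually.of_forall fun k => mem_δO _) ?_
  intro i
  filter_upwards [eventually_gt_atTop i.toNat] with k hk
  refine Prod.ext ?_ rfl
  change δ (k : ℤ) i = false
  rw [δ_false]
  omega

/-! ### Endomorphisms -/

section Endo

variable {ψ : (ℤ → Bool × Bool) → (ℤ → Bool × Bool)}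

lemma radius (hc : ContinuousOn ψ X) : ∃ R : ℤ, 0 ≤ R ∧ ∀ z ∈ X, ∀ w ∈ X,
    (∀ j, |j| ≤ R → z j = w j) → ψ z 0 = ψ w 0 := by
  by_contra hcon
  push Not at hcon
  have h := fun R : ℕ => hcon R (by positivity)
  choose z hz w hw hzw hne using h
  obtain ⟨x, hx, φ, hφ, hlim⟩ := isClosed_X.isCompact.tendsto_subseq hz
  have h1 : ∀ j, ∀ᶠ n in atTop, z (φ n) j = x j := by
    intro j
    have := tendsto_pi_nhds.1 hlim j
    rw [nhds_discrete, tendsto_pure] at this
    exact this
  have h2 : Tendsto (w ∘ φ) atTop (𝓝 x) := by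
    rw [tendsto_pi_nhds]
    intro j
    apply tendsto_nhds_of_eventually_eq
    filter_upwards [h1 j, eventually_ge_atTop j.natAbs] with n hn hn2
    change w (φ n) j = x j
    rw [← hn]
    refine (hzw (φ n) j ?_).symm
    have : n ≤ φ n := hφ.id_le n
    rw [Int.abs_eq_natAbs]
    omega
  have h3 : Tendsto (fun n => ψ (z (φ n)) 0) atTop (𝓝 (ψ x 0)) := by
    have h4 : Tendsto (fun n => ψ (z (φ n))) atTop (𝓝 (ψ x)) := by
      refine (hc x hx).tendsto.comp (tendsto_nhdsWithin_iff.2 ⟨hlim, Eventually.of_forall fun n => hz _⟩)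
    exact (tendsto_pi_nhds.1 h4) 0
  have h3' : Tendsto (fun n => ψ (w (φ n)) 0) atTop (𝓝 (ψ x 0)) := by
    have h4 : Tendsto (fun n => ψ (w (φ n))) atTop (𝓝 (ψ x)) := by
      refine (hc x hx).tendsto.comp (tendsto_nhdsWithin_iff.2 ⟨h2, Eventually.of_forall fun n => hw _⟩)
    exact (tendsto_pi_nhds.1 h4) 0
  rw [nhds_discrete, tendsto_pure] at h3 h3'
  obtain ⟨n, hn1, hn2⟩ := (h3.and h3').exists
  exact hne (φ n) (hn1.trans hn2.symm)

lemma comm (hs : ∀ z ∈ X, ψ (sh 1 z) = sh 1 (ψ z)) (s : ℤ) :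
    ∀ z ∈ X, ψ (sh s z) = sh s (ψ z) := by
  have key : ∀ n : ℕ, ∀ z ∈ X, ψ (sh n z) = sh n (ψ z) := by
    intro n
    induction n with
    | zero => intro z _; rw [Nat.cast_zero, sh_zero, sh_zero]
    | succ n ih =>
      intro z hz
      rw [Nat.cast_succ, ← sh_add, ih _ (sh_mem 1 hz), hs z hz, sh_add]
  intro z hz
  rcases le_total 0 s with h | h
  · have := key s.toNat z hz
    rwa [Int.toNat_of_nonneg h] at this
  · have := key (-s).toNat (sh s z) (sh_mem s hz)
    rw [Int.toNat_of_nonneg (by omega), sh_add, neg_add_cancel, sh_zero] at this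
    rw [this, sh_add, add_neg_cancel, sh_zero]

/-- hypotheses on the endomorphism -/
structure Hyp (ψ : (ℤ → Bool × Bool) → (ℤ → Bool × Bool)) (R : ℤ) : Prop where
  R0 : 0 ≤ R
  maps : MapsTo ψ X X
  comm : ∀ s : ℤ, ∀ z ∈ X, ψ (sh s z) = sh s (ψ z)
  rad : ∀ z ∈ X, ∀ w ∈ X, (∀ j, |j| ≤ R → z j = w j) → ψ z 0 = ψ w 0

variable {R : ℤ}

lemma loc (h : Hyp ψ R) {z w : ℤ → Bool × Bool} (hz : z ∈ X) (hw : w ∈ X) (m n : ℤ)
    (hzw : ∀ j, |j| ≤ R → z (j + m) = w (j + n)) : ψ z m = ψ w n := by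
  have h1 := congrFun (h.comm m z hz) 0
  have h2 := congrFun (h.comm n w hw) 0
  have h3 := h.rad _ (sh_mem m hz) _ (sh_mem n hw) hzw
  rw [h1, h2] at h3
  change ψ z (0 + m) = ψ w (0 + n) at h3
  rwa [zero_add, zero_add] at h3

lemma loc' (h : Hyp ψ R) {z w : ℤ → Bool × Bool} (hz : z ∈ X) (hw : w ∈ X) (m : ℤ)
    (hzw : ∀ j, |j - m| ≤ R → z j = w j) : ψ z m = ψ w m :=
  loc h hz hw m m fun j hj => hzw _ (by rwa [add_sub_cancel_right])

lemma ψ_OO (h : Hyp ψ R) : ψ (pr O O) = pr O O := by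
  have hm := h.maps mem_OO
  obtain ⟨h1, h2⟩ := mem_E hm
  have hs : sh 1 (ψ (pr O O)) = ψ (pr O O) := by
    rw [← h.comm 1 _ mem_OO]
    rfl
  have key : ∀ e : ℤ → Bool, E e → sh 1 e = e → e = O := by
    rintro e (rfl | ⟨a, rfl⟩ | ⟨a, rfl⟩) he
    · rfl
    · exfalso
      rw [sh_δ] at he
      have := congrFun he a
      rw [Bool.eq_iff_iff, δ_true, δ_true] at this
      omega
    · exfalso
      rw [sh_T] at he
      have := congrFun he (a + 1)
      rw [Bool.eq_iff_iff, T_true, T_true] at this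
      have h3 : P (a + 1 - (a - 1)) := this.2 (by rw [add_sub_cancel_left]; exact P_one)
      rw [show a + 1 - (a - 1) = 2 by ring] at h3
      exact not_P_two h3
  have e1 : t1 (ψ (pr O O)) = O := key _ h1 (by
    have := congrArg t1 hs
    exact this)
  have e2 : t2 (ψ (pr O O)) = O := key _ h2 (by
    have := congrArg t2 hs
    exact this)
  rw [← pr_t (ψ (pr O O)), e1, e2]

lemma zero_loc (h : Hyp ψ R) {z : ℤ → Bool × Bool} (hz : z ∈ X) (m : ℤ)
    (hz0 : ∀ j, |j - m| ≤ R → z j = (false, false)) : ψ z m = (false, false) := by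
  rw [loc' h hz mem_OO m hz0, ψ_OO h]
  rfl

/-- convergence along shifts by powers of four -/
def Lim (z w : ℤ → Bool × Bool) : Prop := ∀ i : ℤ, ∀ᶠ k : ℕ in atTop, z (i + 4 ^ k) = w i

lemma lim_unique {z w w' : ℤ → Bool × Bool} (h : Lim z w) (h' : Lim z w') : w = w' := by
  funext i
  obtain ⟨k, h1, h2⟩ := ((h i).and (h' i)).exists
  rw [← h1, h2]

lemma lim_ψ (h : Hyp ψ R) {z w : ℤ → Bool × Bool} (hz : z ∈ X) (hw : w ∈ X) (hzw : Lim z w) :
    Lim (ψ z) (ψ w) := by
  intro i
  have h1 : ∀ᶠ k : ℕ in atTop, ∀ j ∈ Finset.Icc (-R) R, z (j + i + 4 ^ k) = w (j + i) := by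
    rw [Filter.eventually_all_finset]
    intro j _
    exact hzw (j + i)
  filter_upwards [h1] with k hk
  refine loc h hz hw _ _ fun j hj => ?_
  rw [← add_assoc]
  exact hk j (Finset.mem_Icc.2 (abs_le.1 hj))

lemma lim_pr {x x' y y' : ℤ → Bool} (hx : ∀ i : ℤ, ∀ᶠ k : ℕ in atTop, x (i + 4 ^ k) = x' i)
    (hy : ∀ i : ℤ, ∀ᶠ k : ℕ in atTop, y (i + 4 ^ k) = y' i) : Lim (pr x y) (pr x' y') := by
  intro i
  filter_upwards [hx i, hy i] with k h1 h2
  exact Prod.ext h1 h2

/-- limits of tracks -/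
lemma E_lim {e : ℤ → Bool} (he : E e) : (∃ a, e = T a ∧ ∀ i, ∀ᶠ k : ℕ in atTop,
    e (i + 4 ^ k) = δ a i) ∨ ((∀ a, e ≠ T a) ∧ ∀ i, ∀ᶠ k : ℕ in atTop, e (i + 4 ^ k) = O i) := by
  by_cases h : ∃ a, e = T a
  · obtain ⟨a, rfl⟩ := h
    exact Or.inl ⟨a, rfl, fun i => ev_T' a i⟩
  · push Not at h
    refine Or.inr ⟨h, ?_⟩
    rcases he with rfl | ⟨a, rfl⟩ | ⟨a, rfl⟩
    · exact fun i => Eventually.of_forall fun k => rfl
    · exact fun i => ev_δ a i
    · exact absurd rfl (h a)

lemma eq_T {e : ℤ → Bool} (he : E e) {s : ℤ} (h : ∀ i, ∀ᶠ k : ℕ in atTop, e (i + 4 ^ k) = δ s i) :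
    e = T s := by
  have hs : δ s s = true := δ_true.2 rfl
  rcases E_lim he with ⟨a, rfl, h'⟩ | ⟨-, h'⟩
  · obtain ⟨k, h1, h2⟩ := ((h s).and (h' s)).exists
    rw [h1, hs] at h2
    rw [δ_true.1 h2.symm]
  · obtain ⟨k, h1, h2⟩ := ((h s).and (h' s)).exists
    rw [h1, hs] at h2
    exact absurd h2 (by simp [O])

lemma Lim_T {z : ℤ → Bool × Bool} (hz : z ∈ X) {s t : ℤ} (h : Lim z (pr (δ s) (δ t))) :
    z = pr (T s) (T t) := by
  obtain ⟨h1, h2⟩ := mem_E hz
  have e1 : t1 z = T s := eq_T h1 fun i => by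
    filter_upwards [h i] with k hk
    exact congrArg Prod.fst hk
  have e2 : t2 z = T t := eq_T h2 fun i => by
    filter_upwards [h i] with k hk
    exact congrArg Prod.snd hk
  rw [← pr_t z, e1, e2]

lemma pr_T_lim (a b : ℤ) : Lim (pr (T a) (T b)) (pr (δ a) (δ b)) :=
  lim_pr (fun i => ev_T' a i) (fun i => ev_T' b i)

/-- The key step: a surjective endomorphism acts on single ones by translations. -/
lemma key (h : Hyp ψ R) (hsurj : SurjOn ψ X X) : ∃ i j : ℤ, |i| ≤ R ∧ |j| ≤ R ∧
    ψ (pr (δ 0) O) = pr (δ i) O ∧ ψ (pr O (δ 0)) = pr O (δ j) := by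
  have hR := h.R0
  set b : ℤ := 4 * R + 1 with hb
  obtain ⟨u, hu, hψu⟩ := hsurj (mem_D (show (0 : ℤ) ≤ b by omega))
  obtain ⟨e1, e2⟩ := mem_E hu
  have hlim : Lim (ψ u) (pr (δ 0) (δ b)) := by rw [hψu]; exact pr_T_lim 0 b
  -- localisation of ones
  have hw0 : ∀ w ∈ X, Lim u w → ψ w = pr (δ 0) (δ b) := fun w hw hl =>
    lim_unique (lim_ψ h hu hw hl) hlim
  have v0 : pr (δ 0) (δ b) 0 ≠ (false, false) := by
    intro hh
    have := congrArg Prod.fst hh
    change δ 0 0 = false at this
    rw [δ_true.2 rfl] at this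
    exact absurd this (by decide)
  have vb : pr (δ 0) (δ b) b ≠ (false, false) := by
    intro hh
    have := congrArg Prod.snd hh
    change δ b b = false at this
    rw [δ_true.2 rfl] at this
    exact absurd this (by decide)
  rcases E_lim e1 with ⟨a, ha, la⟩ | ⟨-, la⟩ <;> rcases E_lim e2 with ⟨c, hc, lc⟩ | ⟨-, lc⟩
  · -- the main case
    have hac : a ≤ c := by
      apply le_of_mem
      rw [← ha, ← hc]
      exact hu
    have hw := hw0 _ (mem_δδ a c) (lim_pr (x := t1 u) (y := t2 u) la lc)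
    have p0 : |0 - a| ≤ R ∨ |0 - c| ≤ R := by
      by_contra hcon
      push Not at hcon
      refine v0 ?_
      rw [← hw]
      refine zero_loc h (mem_δδ a c) 0 fun j hj => ?_
      have h1 : j ≠ a := by rintro rfl; rw [abs_sub_comm] at hj; omega
      have h2 : j ≠ c := by rintro rfl; rw [abs_sub_comm] at hj; omega
      exact Prod.ext (δ_false.2 h1) (δ_false.2 h2)
    have pb : |b - a| ≤ R ∨ |b - c| ≤ R := by
      by_contra hcon
      push Not at hcon
      refine vb ?_
      rw [← hw]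
      refine zero_loc h (mem_δδ a c) b fun j hj => ?_
      have h1 : j ≠ a := by rintro rfl; rw [abs_sub_comm] at hj; omega
      have h2 : j ≠ c := by rintro rfl; rw [abs_sub_comm] at hj; omega
      exact Prod.ext (δ_false.2 h1) (δ_false.2 h2)
    rw [abs_le, abs_le] at p0 pb
    have pa : |a| ≤ R := by rw [abs_le]; omega
    have pc : |b - c| ≤ R := by rw [abs_le]; omega
    have pd : 2 * R < c - a := by rw [abs_le] at pa pc; omega
    have k1 : ψ (pr (δ a) O) = pr (δ 0) O := by
      funext m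
      by_cases hm : |m - c| ≤ R
      · rw [zero_loc h (mem_δO a) m fun j hj => ?_]
        · have : m ≠ 0 := by rintro rfl; rw [abs_le] at hm pa pc; omega
          exact Prod.ext (δ_false.2 this).symm rfl
        · have h1 : j ≠ a := by rintro rfl; rw [abs_le] at hm hj pa; omega
          exact Prod.ext (δ_false.2 h1) rfl
      · rw [loc' h (mem_δO a) (mem_δδ a c) m fun j hj => ?_, hw]
        · have : m ≠ b := by rintro rfl; exact hm pc
          exact Prod.ext rfl (δ_false.2 this)
        · have h1 : j ≠ c := by rintro rfl; rw [abs_sub_comm] at hj; exact hm hj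
          exact Prod.ext rfl (δ_false.2 h1).symm
    have k2 : ψ (pr O (δ c)) = pr O (δ b) := by
      funext m
      by_cases hm : |m - a| ≤ R
      · rw [zero_loc h (mem_Oδ c) m fun j hj => ?_]
        · have : m ≠ b := by rintro rfl; rw [abs_le] at hm pa pc; omega
          exact Prod.ext rfl (δ_false.2 this).symm
        · have h1 : j ≠ c := by rintro rfl; rw [abs_le] at hm hj pa; omega
          exact Prod.ext rfl (δ_false.2 h1)
      · rw [loc' h (mem_Oδ c) (mem_δδ a c) m fun j hj => ?_, hw]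
        · have : m ≠ 0 := by
            rintro rfl
            apply hm
            rwa [zero_sub, abs_neg]
          exact Prod.ext (δ_false.2 this) rfl
        · have h1 : j ≠ a := by rintro rfl; rw [abs_sub_comm] at hj; exact hm hj
          exact Prod.ext (δ_false.2 h1).symm rfl
    refine ⟨-a, b - c, by rwa [abs_neg], pc, ?_, ?_⟩
    · have := h.comm a _ (mem_δO a)
      rw [k1, sh_pr, sh_pr, sh_δ, sh_δ, sub_self, zero_sub] at this
      exact this
    · have := h.comm c _ (mem_Oδ c)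
      rw [k2, sh_pr, sh_pr, sh_δ, sh_δ, sub_self] at this
      exact this
  · exfalso
    have hw := hw0 _ (mem_δO a) (lim_pr (x := t1 u) (y := t2 u) la lc)
    have p0 : |0 - a| ≤ R := by
      by_contra hcon
      push Not at hcon
      refine v0 ?_
      rw [← hw]
      refine zero_loc h (mem_δO a) 0 fun j hj => ?_
      have h1 : j ≠ a := by rintro rfl; rw [abs_sub_comm] at hj; omega
      exact Prod.ext (δ_false.2 h1) rfl
    have pb : |b - a| ≤ R := by
      by_contra hcon
      push Not at hcon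
      refine vb ?_
      rw [← hw]
      refine zero_loc h (mem_δO a) b fun j hj => ?_
      have h1 : j ≠ a := by rintro rfl; rw [abs_sub_comm] at hj; omega
      exact Prod.ext (δ_false.2 h1) rfl
    rw [abs_le] at p0 pb
    omega
  · exfalso
    have hw := hw0 _ (mem_Oδ c) (lim_pr (x := t1 u) (y := t2 u) la lc)
    have p0 : |0 - c| ≤ R := by
      by_contra hcon
      push Not at hcon
      refine v0 ?_
      rw [← hw]
      refine zero_loc h (mem_Oδ c) 0 fun j hj => ?_
      have h1 : j ≠ c := by rintro rfl; rw [abs_sub_comm] at hj; omega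
      exact Prod.ext rfl (δ_false.2 h1)
    have pb : |b - c| ≤ R := by
      by_contra hcon
      push Not at hcon
      refine vb ?_
      rw [← hw]
      refine zero_loc h (mem_Oδ c) b fun j hj => ?_
      have h1 : j ≠ c := by rintro rfl; rw [abs_sub_comm] at hj; omega
      exact Prod.ext rfl (δ_false.2 h1)
    rw [abs_le] at p0 pb
    omega
  · exfalso
    have hw := hw0 _ mem_OO (lim_pr (x := t1 u) (y := t2 u) la lc)
    rw [ψ_OO h] at hw
    exact v0 (congrFun hw 0).symm

/-- A surjective endomorphism is a product of two shifts. -/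
lemma eq_tau (h : Hyp ψ R) (hc : ContinuousOn ψ X) (hsurj : SurjOn ψ X X) :
    ∃ i j : ℤ, EqOn ψ (tau i j) X := by
  have hR := h.R0
  obtain ⟨i, j, hi, hj, h1, h2⟩ := key h hsurj
  refine ⟨i, j, ?_⟩
  -- single ones
  have s1 : ∀ x, ψ (pr (δ x) O) = pr (δ (x + i)) O := by
    intro x
    have := h.comm (-x) _ (mem_δO 0)
    rw [h1, sh_pr, sh_pr, sh_δ, sh_δ, sub_neg_eq_add, sub_neg_eq_add, zero_add, add_comm i] at this
    exact this
  have s2 : ∀ x, ψ (pr O (δ x)) = pr O (δ (x + j)) := by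
    intro x
    have := h.comm (-x) _ (mem_Oδ 0)
    rw [h2, sh_pr, sh_pr, sh_δ, sh_δ, sub_neg_eq_add, sub_neg_eq_add, zero_add, add_comm j] at this
    exact this
  -- two distant ones
  have s3 : ∀ x y, 2 * R < y - x → ψ (pr (δ x) (δ y)) = pr (δ (x + i)) (δ (y + j)) := by
    intro x y hxy
    rw [abs_le] at hi hj
    funext m
    by_cases hm : |m - y| ≤ R
    · rw [loc' h (mem_δδ x y) (mem_Oδ y) m fun l hl => ?_, s2]
      · have : m ≠ x + i := by rintro rfl; rw [abs_le] at hm; omega
        exact Prod.ext (δ_false.2 this).symm rfl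
      · have : l ≠ x := by rintro rfl; rw [abs_le] at hm hl; omega
        exact Prod.ext (δ_false.2 this) rfl
    · rw [loc' h (mem_δδ x y) (mem_δO x) m fun l hl => ?_, s1]
      · have : m ≠ y + j := by rintro rfl; rw [abs_le] at hm; omega
        exact Prod.ext rfl (δ_false.2 this).symm
      · have : l ≠ y := by rintro rfl; rw [abs_le] at hm hl; omega
        exact Prod.ext rfl (δ_false.2 this)
  -- the isolated points with distant tracks
  have s4 : ∀ x y, x ≤ y → ψ (pr (δ x) (δ y)) = pr (δ (x + i)) (δ (y + j)) →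
      ψ (pr (T x) (T y)) = pr (T (x + i)) (T (y + j)) := by
    intro x y hxy hd
    apply Lim_T (h.maps (mem_D hxy))
    rw [← hd]
    exact lim_ψ h (mem_D hxy) (mem_δδ x y) (pr_T_lim x y)
  -- all pairs of ones
  have s5 : ∀ x y, ψ (pr (δ x) (δ y)) = pr (δ (x + i)) (δ (y + j)) := by
    intro x y
    funext m
    have ev1 : ∀ᶠ k : ℕ in atTop, ∀ l ∈ Finset.Icc (m - R) (m + R),
        pr (T (x - 4 ^ (k + 1))) (T (y - 4 ^ k)) l = pr (δ x) (δ y) l := by
      rw [Filter.eventually_all_finset]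
      intro l _
      have h1 := (tendsto_add_atTop_nat 1).eventually (ev_T x l)
      filter_upwards [h1, ev_T y l] with k hk1 hk2
      exact Prod.ext hk1 hk2
    have ev2 : ∀ᶠ k : ℕ in atTop,
        pr (T (x + i - 4 ^ (k + 1))) (T (y + j - 4 ^ k)) m = pr (δ (x + i)) (δ (y + j)) m := by
      have h1 := (tendsto_add_atTop_nat 1).eventually (ev_T (x + i) m)
      filter_upwards [h1, ev_T (y + j) m] with k hk1 hk2
      exact Prod.ext hk1 hk2
    obtain ⟨k, hk1, hk2, hk3⟩ := (ev1.and (ev2.and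
      (tendsto_pow4.eventually_gt_atTop (x - y + 2 * R)))).exists
    have hpos : (0 : ℤ) < 4 ^ k := by positivity
    have hd : 2 * R < (y - 4 ^ k) - (x - 4 ^ (k + 1)) := by
      rw [pow_succ]; omega
    have hle : x - 4 ^ (k + 1) ≤ y - 4 ^ k := by omega
    rw [← loc' h (mem_D hle) (mem_δδ x y) m fun l hl => hk1 l ?_]
    · rw [s4 _ _ hle (s3 _ _ hd), ← hk2, show x - 4 ^ (k + 1) + i = x + i - 4 ^ (k + 1) by ring,
        show y - 4 ^ k + j = y + j - 4 ^ k by ring]
    · rw [Finset.mem_Icc]; rw [abs_le] at hl; constructor <;> omega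
  refine EqOn.of_subset_closure (s := D) ?_ hc (continuous_tau i j).continuousOn subset_closure
    subset_rfl
  rintro _ ⟨a, b, hab, rfl⟩
  rw [s4 a b hab (s5 a b), tau_T]

end Endo

/-- The example over the alphabet `Bool × Bool`. -/
theorem injunctive (ψ : (ℤ → Bool × Bool) → (ℤ → Bool × Bool)) (hm : MapsTo ψ X X)
    (hc : ContinuousOn ψ X) (hs : ∀ z ∈ X, ψ (sh 1 z) = sh 1 (ψ z)) (hsurj : SurjOn ψ X X) :
    InjOn ψ X := by
  obtain ⟨R, hR, hrad⟩ := radius hc
  have h : Hyp ψ R := ⟨hR, hm, comm hs, hrad⟩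
  obtain ⟨i, j, he⟩ := eq_tau h hc hsurj
  exact ((tau_inj i j).injOn).congr he.symm

theorem not_surj : ¬ SurjOn (tau 0 1) X X := by
  intro h
  obtain ⟨u, hu, hu2⟩ := h (mem_D le_rfl : pr (T 0) (T 0) ∈ X)
  have : u = pr (T 0) (T (-1)) := by
    apply tau_inj 0 1
    rw [hu2, tau_T]
    norm_num
  rw [this] at hu
  have := le_of_mem hu
  omega

/-! ### Transport to the alphabet `Fin n` -/

/-- size of the alphabet -/
abbrev N : ℕ := Fintype.card (Bool × Bool)

/-- encoding of the alphabet -/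
noncomputable def e : (Bool × Bool) ≃ Fin N := Fintype.equivFin (Bool × Bool)

/-- letterwise encoding -/
noncomputable def enc (z : ℤ → Bool × Bool) : ℤ → Fin N := fun i => e (z i)

/-- letterwise decoding -/
noncomputable def dec (w : ℤ → Fin N) : ℤ → Bool × Bool := fun i => e.symm (w i)

lemma dec_enc (z : ℤ → Bool × Bool) : dec (enc z) = z := by
  funext i; exact e.symm_apply_apply _

lemma enc_dec (w : ℤ → Fin N) : enc (dec w) = w := by
  funext i; exact e.apply_symm_apply _

lemma continuous_enc : Continuous enc :=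
  continuous_pi fun i => (continuous_of_discreteTopology (f := e)).comp (continuous_apply i)

lemma continuous_dec : Continuous dec :=
  continuous_pi fun i => (continuous_of_discreteTopology (f := e.symm)).comp (continuous_apply i)

/-- the transported subshift -/
def X' : Set (ℤ → Fin N) := dec ⁻¹' X

lemma isClosed_X' : IsClosed X' := isClosed_X.preimage continuous_dec

lemma shift_X' (x : ℤ → Fin N) : x ∈ X' ↔ (fun i => x (i + 1)) ∈ X' := by
  constructor
  · intro h
    exact sh_mem 1 h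
  · intro h
    have h2 : sh (-1) (sh 1 (dec x)) ∈ X := sh_mem (-1) h
    rw [sh_add, neg_add_cancel, sh_zero] at h2
    exact h2

theorem injunctive' (f : (ℤ → Fin N) → (ℤ → Fin N)) (hm : MapsTo f X' X') (hc : ContinuousOn f X')
    (hs : ∀ x ∈ X', f (fun i => x (i + 1)) = fun i => f x (i + 1)) (hsurj : SurjOn f X' X') :
    InjOn f X' := by
  have hX : ∀ z ∈ X, enc z ∈ X' := by
    intro z hz
    change dec (enc z) ∈ X
    rwa [dec_enc]
  have h := injunctive (fun z => dec (f (enc z))) (fun z hz => hm (hX z hz))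
    (continuous_dec.comp_continuousOn (hc.comp continuous_enc.continuousOn hX)) ?_ ?_
  · intro u hu v hv huv
    have h1 : dec u = dec v := by
      apply h hu hv
      change dec (f (enc (dec u))) = dec (f (enc (dec v)))
      rw [enc_dec, enc_dec, huv]
    rw [← enc_dec u, h1, enc_dec]
  · intro z hz
    change dec (f (fun i => enc z (i + 1))) = sh 1 (dec (f (enc z)))
    rw [hs _ (hX z hz)]
    rfl
  · intro w hw
    obtain ⟨u, hu, hu2⟩ := hsurj (hX w hw)
    refine ⟨dec u, hu, ?_⟩
    change dec (f (enc (dec u))) = w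
    rw [enc_dec, hu2, dec_enc]

theorem not_surjunctive' : ¬ (∀ f : (ℤ → Fin N) → (ℤ → Fin N),
        MapsTo f X' X' → ContinuousOn f X' →
        (∀ x ∈ X', f (fun i => x (i + 1)) = fun i => f x (i + 1)) →
        InjOn f X' → SurjOn f X' X') := by
  intro h
  refine not_surj fun w hw => ?_
  have hw' : enc w ∈ X' := by
    change dec (enc w) ∈ X
    rwa [dec_enc]
  have hS : SurjOn (fun w => enc (tau 0 1 (dec w))) X' X' := by
    apply h
    · intro x hx
      change dec (enc _) ∈ X
      rw [dec_enc]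
      exact tau_mem hx
    · exact (continuous_enc.comp ((continuous_tau 0 1).comp continuous_dec)).continuousOn
    · intro x _
      funext i
      change e (_, _) = e (_, _)
      congr 1
      refine Prod.ext ?_ ?_
      · change (dec x (i - 0 + 1)).1 = (dec x (i + 1 - 0)).1
        congr 2; ring
      · change (dec x (i - 1 + 1)).2 = (dec x (i + 1 - 1)).2
        congr 2; ring
    · intro u _ v _ huv
      have h1 : dec u = dec v := tau_inj 0 1 (by
        have := congrArg dec huv
        change dec (enc _) = dec (enc _) at this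
        rwa [dec_enc, dec_enc] at this)
      rw [← enc_dec u, h1, enc_dec]
  obtain ⟨u, hu, hu2⟩ := hS hw'
  refine ⟨dec u, hu, ?_⟩
  have := congrArg dec hu2
  change dec (enc _) = dec (enc _) at this
  rwa [dec_enc, dec_enc] at this

end Pool.Agent.V11107.Injunctive
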