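import Mathlib

/-!
# Injective cellular automata over monoids: passing to finitely generated submonoids
-/

namespace Pool.Agent.V11107.Surjunctive

open Set Filter Topology

section Compactness

variable {X A : Type} [Finite A]

/-- An injective continuous self-map of `A^X` has a local inverse rule at each point. -/
lemma exists_window [TopologicalSpace A] [DiscreteTopology A] (τ : (X → A) → (X → A))
    (hc : Continuous τ) (hi : Function.Injective τ) (p : X) :
    ∃ E : Finset X, ∀ x x' : X → A, (∀ e ∈ E, τ x e = τ x' e) → x p = x' p := by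
  classical
  by_contra hcon
  push Not at hcon
  have : CompactSpace A := Finite.compactSpace
  let t : Finset X → Set ((X → A) × (X → A)) := fun E =>
    {z | (∀ e ∈ E, τ z.1 e = τ z.2 e) ∧ z.1 p ≠ z.2 p}
  have hcl : ∀ E, IsClosed (t E) := by
    intro E
    have e1 : t E = (⋂ e ∈ E, {z : (X → A) × (X → A) | τ z.1 e = τ z.2 e}) ∩
        {z | z.1 p ≠ z.2 p} := by
      ext z
      simp [t]
    rw [e1]
    refine IsClosed.inter ?_ ?_
    · refine isClosed_biInter fun e _ => isClosed_eq ?_ ?_
      · exact (continuous_apply e).comp (hc.comp continuous_fst)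
      · exact (continuous_apply e).comp (hc.comp continuous_snd)
    · have e2 : {z : (X → A) × (X → A) | z.1 p ≠ z.2 p} =
          (fun z : (X → A) × (X → A) => (z.1 p, z.2 p)) ⁻¹' {w | w.1 ≠ w.2} := rfl
      rw [e2]
      exact (isClosed_discrete _).preimage
        (((continuous_apply p).comp continuous_fst).prodMk
          ((continuous_apply p).comp continuous_snd))
  have hne : ∀ E, (t E).Nonempty := by
    intro E
    obtain ⟨x, x', h1, h2⟩ := hcon E
    exact ⟨(x, x'), h1, h2⟩
  have hdir : Directed (· ⊇ ·) t := by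
    intro E E'
    refine ⟨E ∪ E', ?_, ?_⟩
    · rintro z ⟨h1, h2⟩
      exact ⟨fun e he => h1 e (Finset.mem_union_left _ he), h2⟩
    · rintro z ⟨h1, h2⟩
      exact ⟨fun e he => h1 e (Finset.mem_union_right _ he), h2⟩
  obtain ⟨z, hz⟩ := IsCompact.nonempty_iInter_of_directed_nonempty_isCompact_isClosed t hdir hne
    (fun E => (hcl E).isCompact) hcl
  rw [Set.mem_iInter] at hz
  refine (hz ∅).2 ?_
  have : τ z.1 = τ z.2 := by
    funext e
    exact (hz {e}).1 e (Finset.mem_singleton_self e)
  rw [hi this]

/-- The image of a continuous self-map of `A^X` is closed. -/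
lemma exists_preimage [TopologicalSpace A] [DiscreteTopology A] (τ : (X → A) → (X → A))
    (hc : Continuous τ) (y : X → A) (h : ∀ F : Finset X, ∃ x, ∀ f ∈ F, τ x f = y f) :
    ∃ x, τ x = y := by
  classical
  have : CompactSpace A := Finite.compactSpace
  let t : Finset X → Set (X → A) := fun F => {x | ∀ f ∈ F, τ x f = y f}
  have hcl : ∀ F, IsClosed (t F) := by
    intro F
    have e1 : t F = ⋂ f ∈ F, {x : X → A | τ x f = y f} := by
      ext z
      simp [t]
    rw [e1]
    exact isClosed_biInter fun e _ => isClosed_eq ((continuous_apply e).comp hc) continuous_const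
  have hdir : Directed (· ⊇ ·) t := by
    intro E E'
    refine ⟨E ∪ E', ?_, ?_⟩
    · intro z h1 e he
      exact h1 e (Finset.mem_union_left _ he)
    · intro z h1 e he
      exact h1 e (Finset.mem_union_right _ he)
  obtain ⟨z, hz⟩ := IsCompact.nonempty_iInter_of_directed_nonempty_isCompact_isClosed t hdir h
    (fun E => (hcl E).isCompact) hcl
  rw [Set.mem_iInter] at hz
  exact ⟨z, funext fun e => hz {e} e (Finset.mem_singleton_self e)⟩

omit [Finite A] in
/-- Maps given by finite windows are continuous. -/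
lemma continuous_of_window [TopologicalSpace A] [DiscreteTopology A] {ι : Type} [Finite ι]
    (μ : (ι → A) → A) (w : X → ι → X) : Continuous fun (x : X → A) (m : X) => μ fun s => x (w m s) := by
  refine continuous_pi fun m => ?_
  have h1 : Continuous fun (x : X → A) (s : ι) => x (w m s) :=
    continuous_pi fun s => continuous_apply (w m s)
  exact (continuous_of_discreteTopology (f := μ)).comp h1

end Compactness

section RightConvention

variable {M : Type} [Monoid M] {A : Type} [Finite A]

/-- Local to global principle, with the convention `τ x m = μ (s ↦ x (m * s))`: if for each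
finitely generated submonoid containing the memory set the restricted automaton is surjective
whenever it is injective, then the same holds over the whole monoid. -/
theorem local_to_global (S : Finset M) (μ : (S → A) → A)
    (hloc : ∀ (N : Submonoid M) (hS : ∀ s ∈ S, s ∈ N), N.FG →
      Function.Injective (fun (x : N → A) (m : N) => μ fun s => x (m * ⟨s.1, hS s.1 s.2⟩)) →
      Function.Surjective (fun (x : N → A) (m : N) => μ fun s => x (m * ⟨s.1, hS s.1 s.2⟩)))
    (hinj : Function.Injective (fun (x : M → A) (m : M) => μ fun s : S => x (m * s.1))) :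
    Function.Surjective (fun (x : M → A) (m : M) => μ fun s : S => x (m * s.1)) := by
  classical
  intro y
  let _ : TopologicalSpace A := ⊥
  have _ : DiscreteTopology A := ⟨rfl⟩
  have hc : Continuous (fun (x : M → A) (m : M) => μ fun s : S => x (m * s.1)) :=
    continuous_of_window μ fun m s => m * s.1
  obtain ⟨E, hE⟩ := exists_window _ hc hinj 1
  refine exists_preimage _ hc y fun F => ?_
  set N : Submonoid M := Submonoid.closure ((S ∪ E ∪ F : Finset M) : Set M) with hN
  have hsub : ∀ m ∈ S ∪ E ∪ F, m ∈ N := fun m hm => Submonoid.subset_closure hm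
  have hS : ∀ s ∈ S, s ∈ N := fun s hs => hsub s (by simp [hs])
  have hEN : ∀ s ∈ E, s ∈ N := fun s hs => hsub s (by simp [hs])
  have hFN : ∀ s ∈ F, s ∈ N := fun s hs => hsub s (by simp [hs])
  -- extension of configurations
  let ext : (N → A) → (M → A) := fun x m => if h : m ∈ N then x ⟨m, h⟩ else y m
  have hext : ∀ (x : N → A) (m : N), ext x m = x m := by
    intro x m
    simp only [ext]
    rw [dif_pos m.2]
  have hτ : ∀ (x : N → A) (m : N), (μ fun s : S => ext x (m.1 * s.1)) =
      μ fun s => x (m * ⟨s.1, hS s.1 s.2⟩) := by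
    intro x m
    congr 1
    funext s
    exact hext x (m * ⟨s.1, hS s.1 s.2⟩)
  have hinjN : Function.Injective
      (fun (x : N → A) (m : N) => μ fun s => x (m * ⟨s.1, hS s.1 s.2⟩)) := by
    intro x1 x2 h12
    funext m
    have h3 := hE (fun n => ext x1 (m.1 * n)) (fun n => ext x2 (m.1 * n)) fun e he => by
      have h4 := congrFun h12 (m * ⟨e, hEN e he⟩)
      beta_reduce at h4
      rw [← hτ, ← hτ] at h4
      simpa only [Submonoid.coe_mul, mul_assoc] using h4
    beta_reduce at h3
    rw [mul_one, hext, hext] at h3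
    exact h3
  obtain ⟨x, hx⟩ := hloc N hS ⟨S ∪ E ∪ F, rfl⟩ hinjN (fun m => y m.1)
  refine ⟨ext x, fun f hf => ?_⟩
  have h5 := congrFun hx ⟨f, hFN f hf⟩
  beta_reduce at h5 ⊢
  rw [← hτ] at h5
  exact h5

end RightConvention

section LeftConvention

variable {M : Type} [Monoid M] {A : Type} [Finite A]

/-- Local to global principle, with the convention `τ x m = μ (s ↦ x (s * m))`. -/
theorem local_to_global_left (S : Finset M) (μ : (S → A) → A)
    (hloc : ∀ (N : Submonoid M) (hS : ∀ s ∈ S, s ∈ N), N.FG →
      Function.Injective (fun (x : N → A) (m : N) => μ fun s => x (⟨s.1, hS s.1 s.2⟩ * m)) →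
      Function.Surjective (fun (x : N → A) (m : N) => μ fun s => x (⟨s.1, hS s.1 s.2⟩ * m)))
    (hinj : Function.Injective (fun (x : M → A) (m : M) => μ fun s : S => x (s.1 * m))) :
    Function.Surjective (fun (x : M → A) (m : M) => μ fun s : S => x (s.1 * m)) := by
  classical
  intro y
  let _ : TopologicalSpace A := ⊥
  have _ : DiscreteTopology A := ⟨rfl⟩
  have hc : Continuous (fun (x : M → A) (m : M) => μ fun s : S => x (s.1 * m)) :=
    continuous_of_window μ fun m s => s.1 * m
  obtain ⟨E, hE⟩ := exists_window _ hc hinj 1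
  refine exists_preimage _ hc y fun F => ?_
  set N : Submonoid M := Submonoid.closure ((S ∪ E ∪ F : Finset M) : Set M) with hN
  have hsub : ∀ m ∈ S ∪ E ∪ F, m ∈ N := fun m hm => Submonoid.subset_closure hm
  have hS : ∀ s ∈ S, s ∈ N := fun s hs => hsub s (by simp [hs])
  have hEN : ∀ s ∈ E, s ∈ N := fun s hs => hsub s (by simp [hs])
  have hFN : ∀ s ∈ F, s ∈ N := fun s hs => hsub s (by simp [hs])
  let ext : (N → A) → (M → A) := fun x m => if h : m ∈ N then x ⟨m, h⟩ else y m
  have hext : ∀ (x : N → A) (m : N), ext x m = x m := by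
    intro x m
    simp only [ext]
    rw [dif_pos m.2]
  have hτ : ∀ (x : N → A) (m : N), (μ fun s : S => ext x (s.1 * m.1)) =
      μ fun s => x (⟨s.1, hS s.1 s.2⟩ * m) := by
    intro x m
    congr 1
    funext s
    exact hext x (⟨s.1, hS s.1 s.2⟩ * m)
  have hinjN : Function.Injective
      (fun (x : N → A) (m : N) => μ fun s => x (⟨s.1, hS s.1 s.2⟩ * m)) := by
    intro x1 x2 h12
    funext m
    have h3 := hE (fun n => ext x1 (n * m.1)) (fun n => ext x2 (n * m.1)) fun e he => by
      have h4 := congrFun h12 (⟨e, hEN e he⟩ * m)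
      beta_reduce at h4
      rw [← hτ, ← hτ] at h4
      simpa only [Submonoid.coe_mul, mul_assoc] using h4
    beta_reduce at h3
    rw [one_mul, hext, hext] at h3
    exact h3
  obtain ⟨x, hx⟩ := hloc N hS ⟨S ∪ E ∪ F, rfl⟩ hinjN (fun m => y m.1)
  refine ⟨ext x, fun f hf => ?_⟩
  have h5 := congrFun hx ⟨f, hFN f hf⟩
  beta_reduce at h5 ⊢
  rw [← hτ] at h5
  exact h5

end LeftConvention

section ResiduallyFinite

variable {M : Type} [Monoid M] {A : Type} [Finite A]

lemma exists_separating
    (hres : ∀ a b : M, a ≠ b → ∃ (Q : Type) (_ : Monoid Q) (_ : Finite Q) (π : M →* Q), π a ≠ π b)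
    (P : Finset (M × M)) : ∃ (Q : Type) (_ : Monoid Q) (_ : Finite Q) (π : M →* Q),
      ∀ p ∈ P, p.1 ≠ p.2 → π p.1 ≠ π p.2 := by
  classical
  induction P using Finset.induction_on with
  | empty => exact ⟨Unit, inferInstance, inferInstance, 1, by simp⟩
  | insert p P hp ih =>
    obtain ⟨Q, _, _, π, hπ⟩ := ih
    by_cases hpp : p.1 = p.2
    · refine ⟨Q, inferInstance, inferInstance, π, fun r hr hne => ?_⟩
      rcases Finset.mem_insert.1 hr with rfl | hr
      · exact absurd hpp hne
      · exact hπ r hr hne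
    · obtain ⟨Q', _, _, π', hπ'⟩ := hres p.1 p.2 hpp
      refine ⟨Q × Q', inferInstance, inferInstance, π.prod π', fun r hr hne heq => ?_⟩
      rw [MonoidHom.prod_apply, MonoidHom.prod_apply, Prod.mk.injEq] at heq
      rcases Finset.mem_insert.1 hr with rfl | hr
      · exact hπ' heq.2
      · exact hπ r hr hne heq.1

/-- Residually finite monoids are surjunctive. -/
theorem surjective_of_residuallyFinite
    (hres : ∀ a b : M, a ≠ b → ∃ (Q : Type) (_ : Monoid Q) (_ : Finite Q) (π : M →* Q), π a ≠ π b)
    (S : Finset M) (μ : (S → A) → A)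
    (hinj : Function.Injective (fun (x : M → A) (m : M) => μ fun s : S => x (m * s.1))) :
    Function.Surjective (fun (x : M → A) (m : M) => μ fun s : S => x (m * s.1)) := by
  classical
  intro y
  let _ : TopologicalSpace A := ⊥
  have _ : DiscreteTopology A := ⟨rfl⟩
  have hc : Continuous (fun (x : M → A) (m : M) => μ fun s : S => x (m * s.1)) :=
    continuous_of_window μ fun m s => m * s.1
  refine exists_preimage _ hc y fun F => ?_
  -- a finite quotient separating the points of `F`
  obtain ⟨Q, _, _, π, hsurj, hπ⟩ : ∃ (Q : Type) (_ : Monoid Q) (_ : Finite Q) (π : M →* Q),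
      Function.Surjective π ∧ ∀ a ∈ F, ∀ b ∈ F, π a = π b → a = b := by
    obtain ⟨Q, _, _, π, hπ⟩ := exists_separating hres (F ×ˢ F)
    refine ⟨MonoidHom.mrange π, inferInstance, inferInstance, π.mrangeRestrict,
      π.mrangeRestrict_surjective, fun a ha b hb hab => ?_⟩
    by_contra hne
    refine hπ (a, b) (Finset.mem_product.2 ⟨ha, hb⟩) hne ?_
    exact congrArg Subtype.val hab
  let yb : Q → A := fun c => if h : ∃ f ∈ F, π f = c then y h.choose else y 1
  have hyb : ∀ f ∈ F, yb (π f) = y f := by
    intro f hf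
    have h : ∃ f' ∈ F, π f' = π f := ⟨f, hf, rfl⟩
    simp only [yb]
    rw [dif_pos h]
    congr 1
    exact hπ _ h.choose_spec.1 _ hf h.choose_spec.2
  have hτ : ∀ (x : Q → A) (m : M), (μ fun s : S => x (π (m * s.1))) =
      μ fun s : S => x (π m * π s.1) := by
    intro x m
    simp only [map_mul]
  have hinjQ : Function.Injective (fun (x : Q → A) (c : Q) => μ fun s : S => x (c * π s.1)) := by
    intro x1 x2 h12
    have h3 : (fun m => x1 (π m)) = fun m => x2 (π m) := by
      apply hinj
      funext m
      beta_reduce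
      rw [hτ, hτ]
      exact congrFun h12 (π m)
    funext c
    obtain ⟨m, rfl⟩ := hsurj c
    exact congrFun h3 m
  obtain ⟨x, hx⟩ := Finite.surjective_of_injective hinjQ yb
  refine ⟨fun m => x (π m), fun f hf => ?_⟩
  beta_reduce
  rw [hτ, ← hyb f hf]
  exact congrFun hx (π f)

end ResiduallyFinite

section Commutative

/-- Finitely generated commutative monoids are residually finite. -/
lemma residuallyFinite_of_fg (N : Type) [CommMonoid N] [Monoid.FG N] (a b : N) (hab : a ≠ b) :
    ∃ (Q : Type) (_ : Monoid Q) (_ : Finite Q) (π : N →* Q), π a ≠ π b := by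
  classical
  have : Fact (Nat.Prime 2) := ⟨Nat.prime_two⟩
  let R := MonoidAlgebra (ZMod 2) N
  have hft : Algebra.FiniteType (ZMod 2) R := MonoidAlgebra.finiteType_of_fg
  have hnoeth : IsNoetherianRing R := Algebra.FiniteType.isNoetherianRing (ZMod 2) R
  let r : R := MonoidAlgebra.of (ZMod 2) N a - MonoidAlgebra.of (ZMod 2) N b
  have hr : r ≠ 0 := by
    intro h0
    exact hab (MonoidAlgebra.of_injective (sub_eq_zero.1 h0))
  -- a maximal ideal containing the annihilator of `r`
  let J : Ideal R := LinearMap.ker (LinearMap.toSpanSingleton R R r)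
  have hJ : J ≠ ⊤ := by
    intro h
    have h1 : (1 : R) ∈ J := by rw [h]; trivial
    rw [LinearMap.mem_ker, LinearMap.toSpanSingleton_apply, one_smul] at h1
    exact hr h1
  obtain ⟨𝔪, hmax, hle⟩ := Ideal.exists_le_maximal J hJ
  have hpow : ∃ k : ℕ, r ∉ 𝔪 ^ k := by
    by_contra hcon
    push Not at hcon
    have h1 : r ∈ (⨅ i : ℕ, 𝔪 ^ i • ⊤ : Submodule R R) := by
      rw [Submodule.mem_iInf]
      intro i
      rw [smul_eq_mul, Ideal.mul_top]
      exact hcon i
    obtain ⟨m, hm⟩ := (Ideal.mem_iInf_smul_pow_eq_bot_iff 𝔪 r).1 h1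
    have h2 : (1 - (m : R)) ∈ J := by
      rw [LinearMap.mem_ker, LinearMap.toSpanSingleton_apply, sub_smul, one_smul, hm, sub_self]
    have h3 : (1 : R) ∈ 𝔪 := by
      have := 𝔪.add_mem (hle h2) m.2
      rwa [sub_add_cancel] at this
    exact hmax.ne_top ((Ideal.eq_top_iff_one _).2 h3)
  obtain ⟨k, hk⟩ := hpow
  have hfin1 : Finite (R ⧸ 𝔪) := by
    let _ : Field (R ⧸ 𝔪) := Ideal.Quotient.field 𝔪
    have h1 : Algebra.FiniteType (ZMod 2) (R ⧸ 𝔪) :=
      hft.of_surjective (Ideal.Quotient.mkₐ (ZMod 2) 𝔪) (Ideal.Quotient.mkₐ_surjective _ _)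
    have h2 : Module.Finite (ZMod 2) (R ⧸ 𝔪) := finite_of_finite_type_of_isJacobsonRing _ _
    exact Module.finite_of_finite (ZMod 2)
  have hfin : Finite (R ⧸ 𝔪 ^ k) := Ideal.finite_quotient_pow (IsNoetherian.noetherian 𝔪) k
  refine ⟨R ⧸ 𝔪 ^ k, inferInstance, hfin,
    ((Ideal.Quotient.mk (𝔪 ^ k) : R →+* R ⧸ 𝔪 ^ k) : R →* R ⧸ 𝔪 ^ k).comp
      (MonoidAlgebra.of (ZMod 2) N), fun heq => hk ?_⟩
  have h1 : Ideal.Quotient.mk (𝔪 ^ k) (MonoidAlgebra.of (ZMod 2) N a) =
      Ideal.Quotient.mk (𝔪 ^ k) (MonoidAlgebra.of (ZMod 2) N b) := heq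
  exact Ideal.Quotient.eq.1 h1

/-- Commutative monoids are surjunctive. -/
theorem surjective_of_comm (M : Type) [CommMonoid M] (A : Type) [Finite A] (S : Finset M)
    (μ : (S → A) → A)
    (hinj : Function.Injective (fun (x : M → A) (m : M) => μ (fun s : S => x (m * s.1)))) :
    Function.Surjective (fun (x : M → A) (m : M) => μ (fun s : S => x (m * s.1))) := by
  classical
  refine local_to_global S μ (fun N hS hN hinjN => ?_) hinj
  have hfg : Monoid.FG N := (Monoid.fg_iff_submonoid_fg N).2 hN
  -- transport the memory set to `N`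
  let S' : Finset N := S.subtype (· ∈ N)
  have hS' : ∀ s : S, (⟨s.1, hS s.1 s.2⟩ : N) ∈ S' := fun s => by
    simp only [S', Finset.mem_subtype]; exact s.2
  let μ' : (S' → A) → A := fun g => μ fun s => g ⟨⟨s.1, hS s.1 s.2⟩, hS' s⟩
  exact surjective_of_residuallyFinite (residuallyFinite_of_fg N) S' μ' hinjN

end Commutative

end Pool.Agent.V11107.Surjunctive
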